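import Pool.Agent.R730.RP.Stm

/-! Piece CNT: maps that are constant on the blocks of two partitions. -/

set_option autoImplicit false

namespace Pool.Agent.R730.RP

open Finset
open scoped Classical

theorem CNT_ok : S_CNT := by
  intro k X _ s s'
  have h1 : ∀ c : Fin k → X, (if ∀ x y, s.r x y → c x = c y then (1 : ℝ) else 0) *
      (if ∀ x y, s'.r x y → c x = c y then (1 : ℝ) else 0) =
      if s ⊔ s' ≤ Setoid.ker c then 1 else 0 := by
    intro c
    have a : (∀ x y, s.r x y → c x = c y) ↔ s ≤ Setoid.ker c :=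
      ⟨fun h x y hxy => h x y hxy, fun h x y hxy => h hxy⟩
    have b : (∀ x y, s'.r x y → c x = c y) ↔ s' ≤ Setoid.ker c :=
      ⟨fun h x y hxy => h x y hxy, fun h x y hxy => h hxy⟩
    by_cases h2 : s ≤ Setoid.ker c
    · by_cases h3 : s' ≤ Setoid.ker c
      · rw [if_pos (a.mpr h2), if_pos (b.mpr h3), if_pos (sup_le h2 h3), one_mul]
      · rw [if_neg (fun h => h3 (b.mp h)), mul_zero, if_neg (fun h => h3 (le_sup_right.trans h))]
    · rw [if_neg (fun h => h2 (a.mp h)), zero_mul, if_neg (fun h => h2 (le_sup_left.trans h))]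
  rw [Finset.sum_congr rfl (fun c _ => h1 c), Finset.sum_boole, ← Nat.cast_pow]
  congr 1
  rw [← Fintype.card_subtype, ← Nat.card_eq_fintype_card, ← Nat.card_eq_fintype_card,
    Nat.card_congr (Setoid.liftEquiv (s ⊔ s')), Nat.card_fun]

end Pool.Agent.R730.RP
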