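import Pool.Agent.R730.RP.Stm2
import Pool.Agent.H63Fed.Miranda

/-! RP-CURVE: two curves in the closed half-plane joining interleaved points of the axis meet. -/

set_option autoImplicit false

namespace Pool.Agent.R730.RP

open Finset
open scoped Classical

namespace Crv

/-- clamping to the unit interval -/
noncomputable def cl (x : ℝ) : ℝ := max 0 (min 1 x)

lemma cl_nonneg (x : ℝ) : 0 ≤ cl x := le_max_left _ _

lemma cl_le_one (x : ℝ) : cl x ≤ 1 := max_le zero_le_one (min_le_left _ _)

lemma cl_mem (x : ℝ) : cl x ∈ Set.Icc (0 : ℝ) 1 := ⟨cl_nonneg x, cl_le_one x⟩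

lemma cl_of_nonpos (x : ℝ) (h : x ≤ 0) : cl x = 0 := by
  unfold cl
  exact max_eq_left ((min_le_right _ _).trans h)

lemma cl_of_one_le (x : ℝ) (h : 1 ≤ x) : cl x = 1 := by
  unfold cl
  rw [min_eq_left h]
  exact max_eq_right zero_le_one

lemma cl_pos (x : ℝ) (h : 0 < x) : 0 < cl x := lt_max_of_lt_right (lt_min one_pos h)

lemma cl_id (x : ℝ) (h0 : 0 ≤ x) (h1 : x ≤ 1) : cl x = x := by
  unfold cl
  rw [min_eq_right h1, max_eq_right h0]

lemma cl_cont : Continuous cl := by
  unfold cl
  exact continuous_const.max (continuous_const.min continuous_id)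

end Crv

open Crv in
theorem CURVE_ok : S_CURVE := by
  intro a b c d hab hbc hcd α β hα hβ hα2 hβ2 hα0 hα1 hβ0 hβ1
  obtain ⟨A, hA⟩ := isCompact_Icc.exists_bound_of_continuousOn hα
  obtain ⟨B, hB⟩ := isCompact_Icc.exists_bound_of_continuousOn hβ
  have hαc : Continuous fun s => α (cl s) := hα.comp_continuous cl_cont cl_mem
  have hβc : Continuous fun s => β (cl s) := hβ.comp_continuous cl_cont cl_mem
  have hA1 : ∀ s, |(α (cl s)).1| ≤ A := fun s => (norm_fst_le _).trans (hA _ (cl_mem s))
  have hA2 : ∀ s, |(α (cl s)).2| ≤ A := fun s => (norm_snd_le _).trans (hA _ (cl_mem s))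
  have hB1 : ∀ s, |(β (cl s)).1| ≤ B := fun s => (norm_fst_le _).trans (hB _ (cl_mem s))
  have hA0 : 0 ≤ A := (abs_nonneg _).trans (hA1 0)
  have hB0 : 0 ≤ B := (abs_nonneg _).trans (hB1 0)
  set L' : ℝ := A + |d| + 1 with hL'
  set T : ℝ := A + 1 with hT
  set L : ℝ := B + |a| + |c| + L' with hL
  have hd := neg_abs_le d
  have ha := le_abs_self a
  have hc := neg_abs_le c
  have hd0 := abs_nonneg d
  have ha0 := abs_nonneg a
  have hc0 := abs_nonneg c
  have hL'0 : 0 < L' := by rw [hL']; linarith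
  have hL0 : 0 < L := by rw [hL]; linarith
  have hT0 : 0 < T := by rw [hT]; linarith
  let ax : ℝ → ℝ := fun s => (α (cl s)).1 + (-(L * cl (-1 - s)) + L * cl (s - 2))
  let ay : ℝ → ℝ := fun s => (α (cl s)).2 + (-cl (-s) - cl (s - 1))
  let bx : ℝ → ℝ := fun t => (β (cl t)).1 + L' * cl (t - 2)
  let bb : ℝ → ℝ := fun t => (β (cl t)).2 + (-(2 * cl (-t)) - cl (t - 1) / 2 + T * cl (t - 3))
  have hax : Continuous ax := by
    have h1 : Continuous fun s : ℝ => cl (-1 - s) := cl_cont.comp (by fun_prop)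
    have h2 : Continuous fun s : ℝ => cl (s - 2) := cl_cont.comp (by fun_prop)
    exact (continuous_fst.comp hαc).add ((continuous_const.mul h1).neg.add (continuous_const.mul h2))
  have hay : Continuous ay := by
    have h1 : Continuous fun s : ℝ => cl (-s) := cl_cont.comp (by fun_prop)
    have h2 : Continuous fun s : ℝ => cl (s - 1) := cl_cont.comp (by fun_prop)
    exact (continuous_snd.comp hαc).add (h1.neg.sub h2)
  have hbx : Continuous bx := by
    have h2 : Continuous fun s : ℝ => cl (s - 2) := cl_cont.comp (by fun_prop)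
    exact (continuous_fst.comp hβc).add (continuous_const.mul h2)
  have hbb : Continuous bb := by
    have h1 : Continuous fun s : ℝ => cl (-s) := cl_cont.comp (by fun_prop)
    have h2 : Continuous fun s : ℝ => cl (s - 1) := cl_cont.comp (by fun_prop)
    have h3 : Continuous fun s : ℝ => cl (s - 3) := cl_cont.comp (by fun_prop)
    exact (continuous_snd.comp hβc).add
      (((continuous_const.mul h1).neg.sub (h2.div_const 2)).add (continuous_const.mul h3))
  let F : (Fin 2 → ℝ) → (Fin 2 → ℝ) := fun x =>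
    ![ax (5 * x 0 - 2) - bx (5 * x 1 - 1), bb (5 * x 1 - 1) - ay (5 * x 0 - 2)]
  have hF : Continuous F := by
    refine continuous_pi fun i => ?_
    have e0 : Continuous fun x : Fin 2 → ℝ => 5 * x 0 - 2 := by fun_prop
    have e1 : Continuous fun x : Fin 2 → ℝ => 5 * x 1 - 1 := by fun_prop
    fin_cases i
    · exact (hax.comp e0).sub (hbx.comp e1)
    · exact (hbb.comp e1).sub (hay.comp e0)
  obtain ⟨x, hx, hFx⟩ := H63Fed.Miranda.poincare_miranda 2 F hF.continuousOn
    (by
      intro x hx i hi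
      fin_cases i
      · have h0 : x 0 = 0 := hi
        show ax (5 * x 0 - 2) - bx (5 * x 1 - 1) ≤ 0
        rw [h0]
        show (α (cl (5 * 0 - 2))).1 + (-(L * cl (-1 - (5 * 0 - 2))) + L * cl (5 * 0 - 2 - 2)) -
          ((β (cl (5 * x 1 - 1))).1 + L' * cl (5 * x 1 - 1 - 2)) ≤ 0
        rw [cl_of_nonpos (5 * 0 - 2) (by norm_num), hα0, cl_of_one_le (-1 - (5 * 0 - 2)) (by norm_num),
          cl_of_nonpos (5 * 0 - 2 - 2) (by norm_num)]
        have h1 := (abs_le.1 (hB1 (5 * x 1 - 1))).1
        have h2 := mul_nonneg hL'0.le (cl_nonneg (5 * x 1 - 1 - 2))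
        simp only
        linarith
      · have h0 : x 1 = 0 := hi
        show bb (5 * x 1 - 1) - ay (5 * x 0 - 2) ≤ 0
        rw [h0]
        show (β (cl (5 * 0 - 1))).2 + (-(2 * cl (-(5 * 0 - 1))) - cl (5 * 0 - 1 - 1) / 2 +
          T * cl (5 * 0 - 1 - 3)) - ((α (cl (5 * x 0 - 2))).2 +
          (-cl (-(5 * x 0 - 2)) - cl (5 * x 0 - 2 - 1))) ≤ 0
        rw [cl_of_nonpos (5 * 0 - 1) (by norm_num), hβ0, cl_of_one_le (-(5 * 0 - 1)) (by norm_num),
          cl_of_nonpos (5 * 0 - 1 - 1) (by norm_num), cl_of_nonpos (5 * 0 - 1 - 3) (by norm_num)]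
        have h1 := hα2 _ (cl_mem (5 * x 0 - 2))
        have h2 := cl_le_one (-(5 * x 0 - 2))
        have h3 := cl_le_one (5 * x 0 - 2 - 1)
        simp only
        linarith)
    (by
      intro x hx i hi
      fin_cases i
      · have h0 : x 0 = 1 := hi
        show 0 ≤ ax (5 * x 0 - 2) - bx (5 * x 1 - 1)
        rw [h0]
        show 0 ≤ (α (cl (5 * 1 - 2))).1 + (-(L * cl (-1 - (5 * 1 - 2))) + L * cl (5 * 1 - 2 - 2)) -
          ((β (cl (5 * x 1 - 1))).1 + L' * cl (5 * x 1 - 1 - 2))
        rw [cl_of_one_le (5 * 1 - 2) (by norm_num), hα1, cl_of_nonpos (-1 - (5 * 1 - 2)) (by norm_num),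
          cl_of_one_le (5 * 1 - 2 - 2) (by norm_num)]
        have h1 := (abs_le.1 (hB1 (5 * x 1 - 1))).2
        have h2 := mul_le_mul_of_nonneg_left (cl_le_one (5 * x 1 - 1 - 2)) hL'0.le
        simp only
        linarith
      · have h0 : x 1 = 1 := hi
        show 0 ≤ bb (5 * x 1 - 1) - ay (5 * x 0 - 2)
        rw [h0]
        show 0 ≤ (β (cl (5 * 1 - 1))).2 + (-(2 * cl (-(5 * 1 - 1))) - cl (5 * 1 - 1 - 1) / 2 +
          T * cl (5 * 1 - 1 - 3)) - ((α (cl (5 * x 0 - 2))).2 +
          (-cl (-(5 * x 0 - 2)) - cl (5 * x 0 - 2 - 1)))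
        rw [cl_of_one_le (5 * 1 - 1) (by norm_num), hβ1, cl_of_nonpos (-(5 * 1 - 1)) (by norm_num),
          cl_of_one_le (5 * 1 - 1 - 1) (by norm_num), cl_of_one_le (5 * 1 - 1 - 3) (by norm_num)]
        have h1 := (abs_le.1 (hA2 (5 * x 0 - 2))).2
        have h2 := cl_nonneg (-(5 * x 0 - 2))
        have h3 := cl_nonneg (5 * x 0 - 2 - 1)
        simp only
        linarith)
  set s : ℝ := 5 * x 0 - 2 with hs
  set t : ℝ := 5 * x 1 - 1 with ht
  have hX : (α (cl s)).1 + (-(L * cl (-1 - s)) + L * cl (s - 2)) = (β (cl t)).1 + L' * cl (t - 2) := by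
    have h := congrFun hFx 0
    have h' : ax s - bx t = 0 := h
    exact sub_eq_zero.1 h'
  have hY : (β (cl t)).2 + (-(2 * cl (-t)) - cl (t - 1) / 2 + T * cl (t - 3)) =
      (α (cl s)).2 + (-cl (-s) - cl (s - 1)) := by
    have h := congrFun hFx 1
    have h' : bb t - ay s = 0 := h
    exact sub_eq_zero.1 h'
  have hαy := hα2 _ (cl_mem s)
  have hβy := hβ2 _ (cl_mem t)
  rcases lt_or_ge s 0 with hs0 | hs0
  · exfalso
    rw [cl_of_nonpos s hs0.le, hα0, cl_of_nonpos (s - 2) (by linarith)] at hX
    rw [cl_of_nonpos s hs0.le, hα0, cl_of_nonpos (s - 1) (by linarith)] at hY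
    have h1 := cl_pos (-s) (by linarith)
    have h2 := mul_nonneg hL0.le (cl_nonneg (-1 - s))
    have h3 := mul_nonneg hL'0.le (cl_nonneg (t - 2))
    simp only at hX hY
    rcases lt_or_ge t 0 with ht0 | ht0
    · rw [cl_of_nonpos t ht0.le, hβ0] at hX
      simp only at hX
      linarith
    · rcases le_or_gt t 1 with ht1 | ht1
      · rw [cl_of_nonpos (-t) (by linarith), cl_of_nonpos (t - 1) (by linarith),
          cl_of_nonpos (t - 3) (by linarith)] at hY
        linarith
      · rw [cl_of_one_le t ht1.le, hβ1] at hX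
        simp only at hX
        linarith
  · rcases le_or_gt s 1 with hs1 | hs1
    · -- `s` in the unit interval
      rw [cl_of_nonpos (-1 - s) (by linarith), cl_of_nonpos (s - 2) (by linarith)] at hX
      rw [cl_of_nonpos (-s) (by linarith), cl_of_nonpos (s - 1) (by linarith)] at hY
      rcases lt_or_ge t 0 with ht0 | ht0
      · exfalso
        rw [cl_of_nonpos t ht0.le, hβ0, cl_of_nonpos (t - 1) (by linarith),
          cl_of_nonpos (t - 3) (by linarith)] at hY
        have h1 := cl_pos (-t) (by linarith)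
        simp only at hY
        linarith
      · rcases le_or_gt t 1 with ht1 | ht1
        · refine ⟨s, ⟨hs0, hs1⟩, t, ⟨ht0, ht1⟩, ?_⟩
          rw [cl_of_nonpos (t - 2) (by linarith), cl_id s hs0 hs1, cl_id t ht0 ht1] at hX
          rw [cl_of_nonpos (-t) (by linarith), cl_of_nonpos (t - 1) (by linarith),
            cl_of_nonpos (t - 3) (by linarith), cl_id s hs0 hs1, cl_id t ht0 ht1] at hY
          apply Prod.ext <;> linarith
        · exfalso
          rcases le_or_gt t 3 with ht3 | ht3
          · rw [cl_of_one_le t ht1.le, hβ1, cl_of_nonpos (-t) (by linarith),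
              cl_of_nonpos (t - 3) (by linarith)] at hY
            have h1 := cl_pos (t - 1) (by linarith)
            simp only at hY
            linarith
          · rw [cl_of_one_le t ht1.le, hβ1, cl_of_one_le (t - 2) (by linarith)] at hX
            have h1 := (abs_le.1 (hA1 s)).2
            simp only at hX
            linarith
    · exfalso
      rw [cl_of_one_le s hs1.le, hα1, cl_of_nonpos (-1 - s) (by linarith)] at hX
      rw [cl_of_one_le s hs1.le, hα1, cl_of_nonpos (-s) (by linarith)] at hY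
      have h1 := cl_pos (s - 1) (by linarith)
      have h2 := mul_nonneg hL0.le (cl_nonneg (s - 2))
      have h3 := mul_nonneg hL'0.le (cl_nonneg (t - 2))
      simp only at hX hY
      rcases lt_or_ge t 0 with ht0 | ht0
      · rw [cl_of_nonpos t ht0.le, hβ0, cl_of_nonpos (t - 2) (by linarith)] at hX
        simp only at hX
        linarith
      · rcases le_or_gt t 1 with ht1 | ht1
        · rw [cl_of_nonpos (-t) (by linarith), cl_of_nonpos (t - 1) (by linarith),
            cl_of_nonpos (t - 3) (by linarith)] at hY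
          linarith
        · rw [cl_of_one_le t ht1.le, hβ1] at hX hY
          simp only at hX hY
          rcases le_or_gt s 2 with hs2 | hs2
          · rw [cl_of_nonpos (s - 2) (by linarith)] at hX
            linarith
          · rw [cl_of_one_le (s - 1) (by linarith), cl_of_nonpos (-t) (by linarith)] at hY
            have h4 := cl_le_one (t - 1)
            have h5 := mul_nonneg hT0.le (cl_nonneg (t - 3))
            linarith

end Pool.Agent.R730.RP

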