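import Pool.Agent.R730.RP.Stm3

/-!
# RP-EXI: every graph has a chromatic polynomial
-/

set_option autoImplicit false

namespace Pool.Agent.R730.RP

open Finset
open scoped Classical

theorem EXI_ok : S_FK → S_EXI := by
  intro hFK V _ G
  obtain ⟨Z, -, hZ⟩ := hFK V 0 G Fin.elim0
  refine ⟨∑ s : Setoid (Fin 0), Z s, fun n => ?_⟩
  have h := hZ n Fin.elim0
  have hbc : bc G (Fin.elim0 : Fin 0 → V) n (Fin.elim0 : Fin 0 → Fin n) =
      Nat.card (G.Coloring (Fin n)) := by
    unfold bc
    exact Nat.card_congr (Equiv.subtypeUnivEquiv fun f t => t.elim0)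
  rw [hbc] at h
  rw [h, Polynomial.eval_finset_sum]
  refine Finset.sum_congr rfl fun s _ => ?_
  rw [if_pos (fun x => x.elim0), mul_one]

end Pool.Agent.R730.RP
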