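import Pool.Agent.R730.RP.Stm

/-! # RP-FK: the Fortuin-Kasteleyn expansion with boundary -/

set_option autoImplicit false

namespace Pool.Agent.R730.RP

open Finset
open scoped Classical

namespace FKaux

/-- counting functions with prescribed values -/
theorem count_fix {Q T X : Type} [Fintype Q] [Fintype T] [Fintype X] (q : T → Q) (c : T → X) :
    ((univ.filter fun F : Q → X => ∀ t, F (q t) = c t).card : ℝ) =
      if ∀ x y, q x = q y → c x = c y then
        (Fintype.card X : ℝ) ^ (univ.filter fun z : Q => ∀ t, q t ≠ z).card else 0 := by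
  have e1 : (univ.filter fun F : Q → X => ∀ t, F (q t) = c t) =
      Fintype.piFinset fun z : Q => univ.filter fun x : X => ∀ t, q t = z → x = c t := by
    ext F
    simp only [mem_filter, mem_univ, true_and, Fintype.mem_piFinset]
    constructor
    · rintro h z t rfl
      exact h t
    · intro h t
      exact h (q t) t rfl
  rw [e1, Fintype.card_piFinset]
  split_ifs with hc
  · have e2 : ∀ z : Q, (univ.filter fun x : X => ∀ t, q t = z → x = c t).card =
        if ∀ t, q t ≠ z then Fintype.card X else 1 := by
      intro z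
      split_ifs with hz
      · rw [filter_true_of_mem fun x _ t ht => absurd ht (hz t)]
        rfl
      · push Not at hz
        obtain ⟨t, ht⟩ := hz
        rw [card_eq_one]
        refine ⟨c t, ?_⟩
        ext x
        simp only [mem_filter, mem_univ, true_and, mem_singleton]
        constructor
        · intro h
          exact h t ht
        · rintro rfl t' ht'
          exact hc t t' (ht.trans ht'.symm)
    rw [prod_congr rfl fun z _ => e2 z, prod_ite]
    simp
  · push Not at hc
    obtain ⟨x, y, hxy, hne⟩ := hc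
    rw [Nat.cast_eq_zero]
    apply prod_eq_zero (mem_univ (q x))
    rw [card_eq_zero]
    apply filter_eq_empty_iff.mpr
    intro w _ hw
    exact hne ((hw x rfl).symm.trans (hw y hxy.symm))

variable {V : Type} [Fintype V] {k : ℕ}

/-- the graph of an edge set -/
def gA (A : Finset (Sym2 V)) : SimpleGraph V := SimpleGraph.fromEdgeSet (A : Set (Sym2 V))

/-- `f` is constant on `e` -/
def mono {n : ℕ} (f : V → Fin n) (e : Sym2 V) : Prop := (e.map f).IsDiag

omit [Fintype V] in
theorem mono_mk {n : ℕ} (f : V → Fin n) (x y : V) : mono f s(x, y) ↔ f x = f y := by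
  unfold mono
  rw [Sym2.map_mk, Sym2.mk_isDiag_iff]

omit [Fintype V] in
theorem mono_iff {n : ℕ} (f : V → Fin n) (A : Finset (Sym2 V)) :
    (∀ e ∈ A, mono f e) ↔ ∀ x y, (gA A).Reachable x y → f x = f y := by
  constructor
  · rintro h x y ⟨w⟩
    induction w with
    | nil => rfl
    | cons hadj _ ih =>
      refine Eq.trans ?_ ih
      unfold gA at hadj
      rw [SimpleGraph.fromEdgeSet_adj] at hadj
      exact (mono_mk f _ _).mp (h _ (by exact_mod_cast hadj.1))
  · intro h e he
    induction e using Sym2.ind with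
    | _ x y =>
      rw [mono_mk]
      by_cases hxy : x = y
      · rw [hxy]
      · apply h
        apply SimpleGraph.Adj.reachable
        unfold gA
        rw [SimpleGraph.fromEdgeSet_adj]
        exact ⟨by exact_mod_cast he, hxy⟩

/-- number of components without boundary points -/
noncomputable def cnt (A : Finset (Sym2 V)) (b : Fin k → V) : ℕ :=
  (univ.filter fun z : (gA A).ConnectedComponent =>
    ∀ t, (gA A).connectedComponentMk (b t) ≠ z).card

theorem count_A (A : Finset (Sym2 V)) (b : Fin k → V) (n : ℕ) (c : Fin k → Fin n) :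
    ((univ.filter fun f : V → Fin n => (∀ t, f (b t) = c t) ∧ ∀ e ∈ A, mono f e).card : ℝ) =
      if ∀ x y, (gA A).Reachable (b x) (b y) → c x = c y then (n : ℝ) ^ cnt A b else 0 := by
  have e1 : (univ.filter fun f : V → Fin n => (∀ t, f (b t) = c t) ∧ ∀ e ∈ A, mono f e).card =
      (univ.filter fun F : (gA A).ConnectedComponent → Fin n =>
        ∀ t, F ((gA A).connectedComponentMk (b t)) = c t).card := by
    symm
    refine card_bij (fun F _ => fun v => F ((gA A).connectedComponentMk v)) ?_ ?_ ?_
    · intro F hF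
      rw [mem_filter] at hF ⊢
      refine ⟨mem_univ _, hF.2, ?_⟩
      rw [mono_iff]
      intro x y hxy
      exact congrArg F (SimpleGraph.ConnectedComponent.eq.mpr hxy)
    · intro F _ F' _ h
      funext z
      induction z using SimpleGraph.ConnectedComponent.ind with
      | _ v => exact congrFun h v
    · intro f hf
      rw [mem_filter, mono_iff] at hf
      refine ⟨fun z => SimpleGraph.ConnectedComponent.lift f
        (fun v w p _ => hf.2.2 v w ⟨p⟩) z, ?_, ?_⟩
      · rw [mem_filter]
        exact ⟨mem_univ _, fun t => hf.2.1 t⟩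
      · rfl
  rw [e1]
  have h := count_fix (fun t => (gA A).connectedComponentMk (b t)) c
  simp only [SimpleGraph.ConnectedComponent.eq, Fintype.card_fin] at h
  unfold cnt
  convert h

theorem bc_eq (H : SimpleGraph V) (b : Fin k → V) (n : ℕ) (c : Fin k → Fin n) :
    bc H b n c = (univ.filter fun f : V → Fin n => (∀ t, f (b t) = c t) ∧
      ∀ e ∈ H.edgeFinset, ¬ mono f e).card := by
  unfold bc
  rw [← Fintype.card_coe, ← Nat.card_eq_fintype_card]
  refine Nat.card_congr ⟨fun f => ⟨fun v => f.1 v, ?_⟩, fun f => ⟨SimpleGraph.Coloring.mk f.1 ?_, ?_⟩,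
    ?_, ?_⟩
  · rw [mem_filter]
    refine ⟨mem_univ _, f.2, ?_⟩
    intro e he
    induction e using Sym2.ind with
    | _ x y =>
      rw [mono_mk]
      rw [SimpleGraph.mem_edgeFinset, SimpleGraph.mem_edgeSet] at he
      exact f.1.valid he
  · intro v w hvw
    have h := (mem_filter.mp f.2).2.2 s(v, w)
      (by rw [SimpleGraph.mem_edgeFinset, SimpleGraph.mem_edgeSet]; exact hvw)
    rw [mono_mk] at h
    exact h
  · exact (mem_filter.mp f.2).2.1
  · intro f
    apply Subtype.ext
    rfl
  · intro f
    rfl

theorem expand (H : SimpleGraph V) (b : Fin k → V) (n : ℕ) (c : Fin k → Fin n) :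
    (bc H b n c : ℝ) = ∑ A ∈ H.edgeFinset.powerset, (-1 : ℝ) ^ A.card *
      (if ∀ x y, (gA A).Reachable (b x) (b y) → c x = c y then (n : ℝ) ^ cnt A b else 0) := by
  rw [bc_eq, card_filter, Nat.cast_sum]
  have e1 : ∀ f : V → Fin n, (((if (∀ t, f (b t) = c t) ∧ ∀ e ∈ H.edgeFinset, ¬ mono f e
      then 1 else 0 : ℕ)) : ℝ) =
      ∑ A ∈ H.edgeFinset.powerset, (-1 : ℝ) ^ A.card *
        (if (∀ t, f (b t) = c t) ∧ ∀ e ∈ A, mono f e then 1 else 0) := by
    intro f
    have e2 : ∏ e ∈ H.edgeFinset, ((if mono f e then (-1 : ℝ) else 0) + 1) =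
        if ∀ e ∈ H.edgeFinset, ¬ mono f e then 1 else 0 := by
      have : ∀ e ∈ H.edgeFinset, ((if mono f e then (-1 : ℝ) else 0) + 1) =
          if ¬ mono f e then 1 else 0 := by
        intro e _
        by_cases h : mono f e
        · simp [h]
        · simp [h]
      rw [prod_congr rfl this, prod_ite_zero, prod_const_one]
      congr
    have e3 : ∏ e ∈ H.edgeFinset, ((if mono f e then (-1 : ℝ) else 0) + 1) =
        ∑ A ∈ H.edgeFinset.powerset, (if ∀ e ∈ A, mono f e then (-1 : ℝ) ^ A.card else 0) := by
      rw [prod_add]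
      refine sum_congr rfl fun A _ => ?_
      rw [prod_const_one, mul_one, prod_ite_zero, prod_const]
      congr
    by_cases hb : ∀ t, f (b t) = c t
    · simp only [hb, implies_true, true_and]
      push_cast
      rw [← e2, e3]
      refine sum_congr rfl fun A _ => ?_
      rw [mul_ite, mul_one, mul_zero]
    · simp only [hb, false_and, if_false, mul_zero, sum_const_zero, Nat.cast_zero]
  rw [sum_congr rfl fun f _ => e1 f, sum_comm]
  refine sum_congr rfl fun A _ => ?_
  rw [← mul_sum, ← count_A, card_filter]
  push_cast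
  rfl

/-- the partition of the boundary -/
def sA (A : Finset (Sym2 V)) (b : Fin k → V) : Setoid (Fin k) :=
  Setoid.comap b (gA A).reachableSetoid

omit [Fintype V] in
theorem sA_r (A : Finset (Sym2 V)) (b : Fin k → V) (x y : Fin k) :
    (sA A b).r x y ↔ (gA A).Reachable (b x) (b y) := Iff.rfl

end FKaux

open FKaux in
theorem FK_ok : S_FK := by
  intro V _ k H b
  refine ⟨fun s => ∑ A ∈ H.edgeFinset.powerset,
    if sA A b = s then Polynomial.C ((-1 : ℝ) ^ A.card) * Polynomial.X ^ cnt A b else 0, ?_, ?_⟩
  · intro s hs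
    obtain ⟨A, hA, hA2⟩ := exists_ne_zero_of_sum_ne_zero hs
    have hAs : sA A b = s := by
      by_contra h
      rw [if_neg h] at hA2
      exact hA2 rfl
    refine ⟨gA A, ?_, fun x y => by rw [← hAs]; exact sA_r A b x y⟩
    intro x y hxy
    unfold gA at hxy
    rw [SimpleGraph.fromEdgeSet_adj] at hxy
    have h1 : s(x, y) ∈ H.edgeFinset := mem_powerset.mp hA (by exact_mod_cast hxy.1)
    rwa [SimpleGraph.mem_edgeFinset, SimpleGraph.mem_edgeSet] at h1
  · intro n c
    rw [expand]
    simp only [Polynomial.eval_finsetSum, sum_mul]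
    rw [sum_comm]
    refine sum_congr rfl fun A _ => ?_
    rw [sum_eq_single (sA A b)]
    · rw [if_pos rfl]
      simp only [Polynomial.eval_mul, Polynomial.eval_C, Polynomial.eval_pow, Polynomial.eval_X]
      by_cases h : ∀ x y, (gA A).Reachable (b x) (b y) → c x = c y
      · rw [if_pos h, if_pos (show ∀ x y, (sA A b).r x y → c x = c y from h), mul_one]
      · rw [if_neg h, if_neg (show ¬ ∀ x y, (sA A b).r x y → c x = c y from h)]
        ring
    · intro s _ hs
      rw [if_neg (Ne.symm hs), Polynomial.eval_zero, zero_mul]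
    · intro h
      exact absurd (mem_univ _) h

end Pool.Agent.R730.RP
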