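import Pool.Agent.R730.RP.Stm

/-! RP-GLUE: colourings of a gluing (helper656). -/

set_option autoImplicit false

namespace Pool.Agent.R730.RP

open Finset
open scoped Classical

namespace GlueAux

/-- the data of a colouring of the gluing -/
abbrev Dat {V W : Type} {k : ℕ} (H : SimpleGraph V) (b : Fin k → V) (K : SimpleGraph W)
    (c : Fin k → W) (n : ℕ) : Type :=
  Σ s : Fin k → Fin n, {g : H.Coloring (Fin n) // ∀ t, g (b t) = s t} ×
    {h : K.Coloring (Fin n) // ∀ t, h (c t) = s t}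

lemma dat_ext {V W : Type} {k : ℕ} {H : SimpleGraph V} {b : Fin k → V} {K : SimpleGraph W}
    {c : Fin k → W} {n : ℕ} (x y : Dat H b K c n) (h1 : x.1 = y.1)
    (h2 : x.2.1.1 = y.2.1.1) (h3 : x.2.2.1 = y.2.2.1) : x = y := by
  obtain ⟨s, ⟨g, hg⟩, ⟨h, hh⟩⟩ := x
  obtain ⟨s', ⟨g', hg'⟩, ⟨h', hh'⟩⟩ := y
  simp only at h1 h2 h3
  subst h1 h2 h3
  rfl

end GlueAux

theorem GLUE_ok : S_GLUE := by
  intro U V W _ _ _ k G H b K c hG n
  obtain ⟨i, j, hi, hj, hcov, hij, hadj⟩ := hG
  have hbc : ∀ t, i (b t) = j (c t) := fun t => (hij _ _).2 ⟨t, rfl, rfl⟩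
  haveI : Finite (H.Coloring (Fin n)) :=
    Finite.of_injective (fun f : H.Coloring (Fin n) => (f : V → Fin n)) DFunLike.coe_injective
  haveI : Finite (K.Coloring (Fin n)) :=
    Finite.of_injective (fun f : K.Coloring (Fin n) => (f : W → Fin n)) DFunLike.coe_injective
  let iH : H →g G := ⟨i, fun {v v'} h => (hadj _ _).2 (Or.inl ⟨v, v', h, rfl, rfl⟩)⟩
  let jK : K →g G := ⟨j, fun {v v'} h => (hadj _ _).2 (Or.inr ⟨v, v', h, rfl, rfl⟩)⟩
  let F : G.Coloring (Fin n) → GlueAux.Dat H b K c n := fun f =>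
    ⟨fun t => f (i (b t)), ⟨f.comp iH, fun t => rfl⟩, ⟨f.comp jK, fun t => by
      show f (j (c t)) = f (i (b t))
      rw [hbc]⟩⟩
  have hF : Function.Bijective F := by
    constructor
    · intro f f' hff
      have h1 : (F f).2.1.1 = (F f').2.1.1 := by rw [hff]
      have h2 : (F f).2.2.1 = (F f').2.2.1 := by rw [hff]
      apply DFunLike.ext
      intro u
      rcases hcov u with ⟨v, hv⟩ | ⟨w, hw⟩
      · rw [← hv]
        exact DFunLike.congr_fun h1 v
      · rw [← hw]
        exact DFunLike.congr_fun h2 w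
    · rintro ⟨s, ⟨g, hg⟩, ⟨h, hh⟩⟩
      have hex : ∀ u, ∃ a : Fin n, (∀ v, i v = u → a = g v) ∧ ∀ w, j w = u → a = h w := by
        have key : ∀ v w, i v = j w → g v = h w := by
          intro v w hvw
          obtain ⟨t, rfl, rfl⟩ := (hij _ _).1 hvw
          rw [hg, hh]
        intro u
        rcases hcov u with ⟨v, hv⟩ | ⟨w, hw⟩
        · refine ⟨g v, fun v' hv' => ?_, fun w hw => key v w (hv.trans hw.symm)⟩
          rw [hi (hv.trans hv'.symm)]
        · refine ⟨h w, fun v hv => (key v w (hv.trans hw.symm)).symm, fun w' hw' => ?_⟩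
          rw [hj (hw.trans hw'.symm)]
      choose f0 hf1 hf2 using hex
      have hfi : ∀ v, f0 (i v) = g v := fun v => hf1 _ v rfl
      have hfj : ∀ w, f0 (j w) = h w := fun w => hf2 _ w rfl
      let f : G.Coloring (Fin n) := SimpleGraph.Coloring.mk f0 (by
        intro x y hxy
        rcases (hadj x y).1 hxy with ⟨v, v', ha, hx, hy⟩ | ⟨v, v', ha, hx, hy⟩
        · rw [← hx, ← hy, hfi, hfi]
          exact g.valid ha
        · rw [← hx, ← hy, hfj, hfj]
          exact h.valid ha)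
      refine ⟨f, GlueAux.dat_ext _ _ ?_ ?_ ?_⟩
      · funext t
        show f0 (i (b t)) = s t
        rw [hfi, hg]
      · apply DFunLike.ext
        intro v
        exact hfi v
      · apply DFunLike.ext
        intro w
        exact hfj w
  rw [Nat.card_eq_of_bijective F hF, Nat.card_sigma]
  refine Finset.sum_congr rfl fun s _ => ?_
  rw [Nat.card_prod]
  rfl

end Pool.Agent.R730.RP
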