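import Pool.Agent.R730.RP.Stm2

/-!
# Piece RP-HP: a graph drawn in the closed half-plane is cross-free
-/

set_option autoImplicit false

namespace Pool.Agent.R730.RP

open Finset
open scoped Classical

namespace HPx

/-- the drawing of the vertices in `s` and of the edges between them -/
def img {V : Type} (H : SimpleGraph V) (f : V → ℝ × ℝ) (γ : V → V → ℝ → ℝ × ℝ) (s : Set V) :
    Set (ℝ × ℝ) :=
  {p | 0 ≤ p.2 ∧ ((∃ x ∈ s, p = f x) ∨
    ∃ x ∈ s, ∃ y ∈ s, H.Adj x y ∧ ∃ t ∈ Set.Ioo (0 : ℝ) 1, p = γ x y t)}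

lemma img_mono {V : Type} {H : SimpleGraph V} {f : V → ℝ × ℝ} {γ : V → V → ℝ → ℝ × ℝ}
    {s s' : Set V} (h : s ⊆ s') : img H f γ s ⊆ img H f γ s' := by
  rintro p ⟨h0, h1 | h1⟩
  · obtain ⟨x, hx, hp⟩ := h1
    exact ⟨h0, Or.inl ⟨x, h hx, hp⟩⟩
  · obtain ⟨x, hx, y, hy, hxy, t, ht, hp⟩ := h1
    exact ⟨h0, Or.inr ⟨x, h hx, y, h hy, hxy, t, ht, hp⟩⟩

lemma joined {V : Type} {H : SimpleGraph V} {f : V → ℝ × ℝ} {γ : V → V → ℝ → ℝ × ℝ}
    (hD : Drawing H f γ)
    (hup : ∀ u v, H.Adj u v → ∀ t ∈ Set.Icc (0 : ℝ) 1, 0 ≤ (γ u v t).2) {u v : V}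
    (w : H.Walk u v) (hu : 0 ≤ (f u).2) :
    JoinedIn (img H f γ {x | x ∈ w.support}) (f u) (f v) := by
  induction w with
  | nil =>
    refine JoinedIn.refl ⟨hu, Or.inl ⟨_, ?_, rfl⟩⟩
    simp
  | @cons a c d h p ih =>
    obtain ⟨hc, _, h0, h1, _⟩ := hD.2.1 _ _ h
    have hc2 : 0 ≤ (f c).2 := by
      rw [← h1]
      exact hup _ _ h 1 ⟨zero_le_one, le_rfl⟩
    have hsub : {x | x ∈ p.support} ⊆ {x | x ∈ (SimpleGraph.Walk.cons h p).support} := by
      intro x hx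
      rw [Set.mem_ofPred_eq] at hx ⊢
      rw [SimpleGraph.Walk.support_cons]
      exact List.mem_cons_of_mem _ hx
    have ha : a ∈ {x | x ∈ (SimpleGraph.Walk.cons h p).support} := by
      rw [Set.mem_ofPred_eq, SimpleGraph.Walk.support_cons]
      exact List.mem_cons_self
    have hcm : c ∈ {x | x ∈ (SimpleGraph.Walk.cons h p).support} :=
      hsub (SimpleGraph.Walk.start_mem_support p)
    refine JoinedIn.trans (y := f c) ?_ ((ih hc2).mono (img_mono hsub))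
    refine JoinedIn.ofLine (f := γ a c) hc h0 h1 ?_
    rintro _ ⟨t, ht, rfl⟩
    refine ⟨hup _ _ h t ht, ?_⟩
    rcases ht.1.eq_or_lt with h2 | h2
    · left
      exact ⟨a, ha, by rw [← h2]; exact h0⟩
    · rcases ht.2.eq_or_lt with h3 | h3
      · left
        exact ⟨c, hcm, by rw [h3]; exact h1⟩
      · right
        exact ⟨a, ha, c, hcm, h, t, ⟨h2, h3⟩, rfl⟩

lemma mk_inj {α : Type} {a a' : α} (h : Sym2.mk a = Sym2.mk a') : a = a' := by
  have h1 := congrFun h a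
  rcases Sym2.eq_iff.mp h1 with ⟨h2, _⟩ | ⟨_, h2⟩
  · exact h2
  · exact h2

lemma common {V : Type} {H : SimpleGraph V} {f : V → ℝ × ℝ} {γ : V → V → ℝ → ℝ × ℝ}
    (hD : Drawing H f γ) {s s' : Set V} {p : ℝ × ℝ} (h : p ∈ img H f γ s) (h' : p ∈ img H f γ s') :
    ∃ x, x ∈ s ∧ x ∈ s' := by
  obtain ⟨hinj, harc, hcross⟩ := hD
  rcases h.2 with ⟨x, hx, hp⟩ | ⟨x, hx, y, hy, hxy, t, ht, hp⟩
  · rcases h'.2 with ⟨x', hx', hp'⟩ | ⟨x', hx', y', hy', hxy', t', ht', hp'⟩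
    · have : x = x' := hinj (hp.symm.trans hp')
      exact ⟨x, hx, by rw [this]; exact hx'⟩
    · exact absurd (hp'.symm.trans hp) ((harc _ _ hxy').2.2.2.2 t' ht' x)
  · rcases h'.2 with ⟨x', hx', hp'⟩ | ⟨x', hx', y', hy', hxy', t', ht', hp'⟩
    · exact absurd (hp.symm.trans hp') ((harc _ _ hxy).2.2.2.2 t ht x')
    · by_cases he : Sym2.mk (x, y) = Sym2.mk (x', y')
      · have h1 : x = x' := (Prod.mk.inj (mk_inj he)).1
        exact ⟨x, hx, by rw [h1]; exact hx'⟩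
      · exact absurd (hp.symm.trans hp') (hcross x y x' y' hxy hxy' he t ht t' ht')

end HPx

open HPx in
theorem HP_ok : S_CURVE → S_HP := by
  intro hC V k H b f γ hD hup haxis hord i j l m hij hjl hlm w w'
  have h1 := joined hD hup w (haxis i).ge
  have h2 := joined hD hup w' (haxis j).ge
  obtain ⟨P, hP⟩ := h1
  obtain ⟨Q, hQ⟩ := h2
  have hPe : ∀ t ∈ Set.Icc (0 : ℝ) 1, P.extend t ∈ img H f γ {x | x ∈ w.support} := by
    intro t ht
    rw [Path.extend_apply P ht]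
    exact hP _
  have hQe : ∀ t ∈ Set.Icc (0 : ℝ) 1, Q.extend t ∈ img H f γ {x | x ∈ w'.support} := by
    intro t ht
    rw [Path.extend_apply Q ht]
    exact hQ _
  have hax : ∀ i, f (b i) = ((f (b i)).1, 0) := fun i => Prod.ext rfl (haxis i)
  obtain ⟨s, hs, t, ht, hst⟩ := hC (f (b i)).1 (f (b j)).1 (f (b l)).1 (f (b m)).1
    (hord i j hij) (hord j l hjl) (hord l m hlm) (fun t => P.extend t) (fun t => Q.extend t)
    P.continuous_extend.continuousOn Q.continuous_extend.continuousOn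
    (fun t ht => (hPe t ht).1) (fun t ht => (hQe t ht).1)
    (by show P.extend 0 = _; rw [Path.extend_zero]; exact hax i)
    (by show P.extend 1 = _; rw [Path.extend_one]; exact hax l)
    (by show Q.extend 0 = _; rw [Path.extend_zero]; exact hax j)
    (by show Q.extend 1 = _; rw [Path.extend_one]; exact hax m)
  have h3 := hPe s hs
  have h4 := hQe t ht
  have h5 : P.extend s = Q.extend t := hst
  rw [← h5] at h4
  exact common hD h3 h4

end Pool.Agent.R730.RP
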