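import Pool.Agent.R730.RP.Stm

/-!
# RP-IP: inner products of words do not depend on the model
-/

set_option autoImplicit false

namespace Pool.Agent.R730.RP

open Finset
open scoped Classical

namespace Ip

section basic

variable {X : Type}

/-- linear operations -/
structure Lin (op : (List X → ℝ) → List X → ℝ) : Prop where
  add : ∀ F G, op (fun l => F l + G l) = fun l => op F l + op G l
  smul : ∀ (a : ℝ) F, op (fun l => a * F l) = fun l => a * op F l

theorem Lin.zero {op : (List X → ℝ) → List X → ℝ} (h : Lin op) : op (fun _ => 0) = fun _ => 0 := by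
  have := h.smul 0 (fun _ => 0)
  simpa using this

theorem Lin.sum {op : (List X → ℝ) → List X → ℝ} (h : Lin op) {ι : Type} (s : Finset ι)
    (a : ι → ℝ) (F : ι → List X → ℝ) :
    op (fun l => ∑ i ∈ s, a i * F i l) = fun l => ∑ i ∈ s, a i * op (F i) l := by
  induction s using Finset.induction_on with
  | empty => simpa using h.zero
  | insert i s hi ih =>
    simp only [Finset.sum_insert hi]
    rw [h.add, h.smul]
    rw [ih]

theorem lift_lin {op : (List X → ℝ) → List X → ℝ} (h : Lin op) (i : ℕ) : Lin (lift op i) := by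
  induction i with
  | zero =>
    constructor
    · intro F G
      funext l
      exact congrFun (h.add F G) l
    · intro a F
      funext l
      exact congrFun (h.smul a F) l
  | succ i ih =>
    constructor
    · intro F G
      funext l
      cases l with
      | nil => simp [lift]
      | cons x l => exact congrFun (ih.add _ _) l
    · intro a F
      funext l
      cases l with
      | nil => simp [lift]
      | cons x l => exact congrFun (ih.smul a _) l

theorem lift_comp (op op' : (List X → ℝ) → List X → ℝ) (i : ℕ) (F : List X → ℝ) :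
    lift op i (lift op' i F) = lift (fun G => op (op' G)) i F := by
  induction i generalizing F with
  | zero => rfl
  | succ i ih =>
    funext l
    cases l with
    | nil => rfl
    | cons x l => exact congrFun (ih (fun l' => F (x :: l'))) l

theorem lift_lift (op : (List X → ℝ) → List X → ℝ) (i e : ℕ) (F : List X → ℝ) :
    lift op (i + e) F = lift (lift op e) i F := by
  induction i generalizing F with
  | zero =>
    rw [Nat.zero_add]
    rfl
  | succ i ih =>
    funext l
    cases l with
    | nil =>
      rw [Nat.succ_add]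
      rfl
    | cons x l =>
      rw [Nat.succ_add]
      exact congrFun (ih (fun l' => F (x :: l'))) l

theorem lift_congr {op op' : (List X → ℝ) → List X → ℝ} (h : ∀ F, op F = op' F) (i : ℕ)
    (F : List X → ℝ) : lift op i F = lift op' i F := by
  have : op = op' := funext h
  rw [this]

/-- functions supported on lists of length `k` -/
def Sp (k : ℕ) (F : List X → ℝ) : Prop := ∀ l, l.length ≠ k → F l = 0

theorem lift_id (i k : ℕ) (F : List X → ℝ) (hF : Sp k F) (hi : i ≤ k) :
    lift (fun G => G) i F = F := by
  induction i generalizing k F with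
  | zero => rfl
  | succ i ih =>
    funext l
    cases l with
    | nil =>
      rw [hF [] (by simp; omega)]
      rfl
    | cons x l =>
      obtain ⟨k', rfl⟩ : ∃ k', k = k' + 1 := ⟨k - 1, by omega⟩
      have := ih k' (fun l' => F (x :: l')) (fun l' hl' => hF _ (by simpa using hl')) (by omega)
      exact congrFun this l

theorem lift_sp {op : (List X → ℝ) → List X → ℝ} {a b : ℕ}
    (h : ∀ r F, Sp (r + a) F → Sp (r + b) (op F)) (i r : ℕ) (F : List X → ℝ)
    (hF : Sp (i + r + a) F) : Sp (i + r + b) (lift op i F) := by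
  induction i generalizing F with
  | zero =>
    have := h r F (by simpa using hF)
    simpa [lift] using this
  | succ i ih =>
    intro l hl
    cases l with
    | nil => rfl
    | cons x l =>
      refine ih (fun l' => F (x :: l')) ?_ l ?_
      · intro l' hl'
        apply hF
        simp only [List.length_cons]
        omega
      · simp only [List.length_cons] at hl
        omega

end basic

section model

variable {X : Type} [Fintype X] (M : Model X)

/-- remove the first point -/
noncomputable def cap0 (F : List X → ℝ) : List X → ℝ := fun l => ∑ x, M.u x * F (x :: l)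

/-- merge the first two points -/
noncomputable def mrg0 (F : List X → ℝ) : List X → ℝ
  | [] => 0
  | z :: l => ∑ p : X × X, M.m p.1 p.2 z * F (p.1 :: p.2 :: l)

theorem lin_ins0 : Lin (ins0 M) := by
  constructor
  · intro F G
    funext l
    cases l with
    | nil => simp [ins0]
    | cons x l => simp [ins0]; ring
  · intro a F
    funext l
    cases l with
    | nil => simp [ins0]
    | cons x l => simp [ins0]; ring

theorem lin_dup0 : Lin (dup0 M) := by
  constructor
  · intro F G
    funext l
    match l with
    | [] => simp [dup0]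
    | [x] => simp [dup0]
    | x :: y :: l =>
      simp only [dup0]
      rw [← Finset.sum_add_distrib]
      exact Finset.sum_congr rfl fun z _ => by ring
  · intro a F
    funext l
    match l with
    | [] => simp [dup0]
    | [x] => simp [dup0]
    | x :: y :: l =>
      simp only [dup0]
      rw [Finset.mul_sum]
      exact Finset.sum_congr rfl fun z _ => by ring

theorem lin_cap0 : Lin (cap0 M) := by
  constructor
  · intro F G
    funext l
    simp only [cap0]
    rw [← Finset.sum_add_distrib]
    exact Finset.sum_congr rfl fun z _ => by ring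
  · intro a F
    funext l
    simp only [cap0]
    rw [Finset.mul_sum]
    exact Finset.sum_congr rfl fun z _ => by ring

theorem lin_mrg0 : Lin (mrg0 M) := by
  constructor
  · intro F G
    funext l
    cases l with
    | nil => simp [mrg0]
    | cons z l =>
      simp only [mrg0]
      rw [← Finset.sum_add_distrib]
      exact Finset.sum_congr rfl fun z _ => by ring
  · intro a F
    funext l
    cases l with
    | nil => simp [mrg0]
    | cons z l =>
      simp only [mrg0]
      rw [Finset.mul_sum]
      exact Finset.sum_congr rfl fun z _ => by ring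

/-! supports -/

theorem sp_ins0 (r : ℕ) (F : List X → ℝ) (h : Sp (r + 0) F) : Sp (r + 1) (ins0 M F) := by
  intro l hl
  cases l with
  | nil => rfl
  | cons x l =>
    simp only [ins0]
    rw [h l (by simpa using hl), mul_zero]

theorem sp_dup0 (r : ℕ) (F : List X → ℝ) (h : Sp (r + 1) F) : Sp (r + 2) (dup0 M F) := by
  intro l hl
  match l with
  | [] => rfl
  | [x] => rfl
  | x :: y :: l =>
    simp only [dup0]
    apply Finset.sum_eq_zero
    intro z _
    rw [h (z :: l) (by simp only [List.length_cons] at hl ⊢; omega), mul_zero]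

theorem sp_eval {k : ℕ} (W : Word k) : Sp k (eval M W) := by
  induction W with
  | nil =>
    intro l hl
    simp only [eval]
    rw [if_neg]
    rintro rfl
    exact hl rfl
  | @ins k i hi W ih =>
    obtain ⟨r, rfl⟩ : ∃ r, k = i + r := ⟨k - i, by omega⟩
    exact lift_sp (fun r F h => sp_ins0 M r F h) i r _ ih
  | @dup k i hi W ih =>
    obtain ⟨r, rfl⟩ : ∃ r, k = i + r := ⟨k - i, by omega⟩
    exact lift_sp (fun r F h => sp_dup0 M r F h) i r _ ih

/-! relations at distance -/

theorem cap0_lift {op : (List X → ℝ) → List X → ℝ} (h : Lin op) (e : ℕ) (F : List X → ℝ) :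
    cap0 M (lift op (e + 1) F) = lift op e (cap0 M F) := by
  have h1 := (lift_lin h e).sum (univ : Finset X) M.u (fun x l => F (x :: l))
  funext l
  have h2 := congrFun h1 l
  exact h2.symm

theorem mrg0_lift {op : (List X → ℝ) → List X → ℝ} (h : Lin op) (e : ℕ) (F : List X → ℝ) :
    mrg0 M (lift op (e + 2) F) = lift op (e + 1) (mrg0 M F) := by
  funext l
  cases l with
  | nil => rfl
  | cons z l =>
    have h1 := (lift_lin h e).sum (univ : Finset (X × X)) (fun p => M.m p.1 p.2 z)
      (fun p l => F (p.1 :: p.2 :: l))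
    exact (congrFun h1 l).symm

theorem ins0_lift {op : (List X → ℝ) → List X → ℝ} (h : Lin op) (e : ℕ) (F : List X → ℝ) :
    lift op (e + 1) (ins0 M F) = ins0 M (lift op e F) := by
  funext l
  cases l with
  | nil => rfl
  | cons x l =>
    have h1 := (lift_lin h e).smul (M.u x) F
    exact congrFun h1 l

theorem dup0_lift {op : (List X → ℝ) → List X → ℝ} (h : Lin op) (e : ℕ) (F : List X → ℝ) :
    lift op (e + 2) (dup0 M F) = dup0 M (lift op (e + 1) F) := by
  funext l
  match l with
  | [] => rfl
  | [x] => rfl
  | x :: y :: l =>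
    have h1 := (lift_lin h e).sum (univ : Finset X) (fun z => M.m x y z) (fun z l => F (z :: l))
    exact congrFun h1 l

/-! local relations -/

theorem cap0_ins0 (F : List X → ℝ) : cap0 M (ins0 M F) = fun l => M.q * F l := by
  funext l
  simp only [cap0, ins0]
  rw [← M.F1, Finset.sum_mul]
  exact Finset.sum_congr rfl fun x _ => by ring

theorem cap0_dup0 (F : List X → ℝ) : cap0 M (dup0 M F) = lift (fun G => G) 1 F := by
  funext l
  cases l with
  | nil =>
    simp only [cap0, dup0, mul_zero, Finset.sum_const_zero]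
    rfl
  | cons y l =>
    simp only [cap0, dup0]
    have h : ∀ x, M.u x * ∑ z, M.m x y z * F (z :: l) = ∑ z, (M.u x * M.m x y z) * F (z :: l) := by
      intro x
      rw [Finset.mul_sum]
      exact Finset.sum_congr rfl fun z _ => by ring
    simp only [h]
    rw [Finset.sum_comm]
    have h2 : ∀ z, ∑ x, (M.u x * M.m x y z) * F (z :: l) = (if y = z then 1 else 0) * F (z :: l) := by
      intro z
      rw [← Finset.sum_mul, M.F2]
    simp only [h2]
    simp
    rfl

theorem cap1_dup0 (F : List X → ℝ) : lift (cap0 M) 1 (dup0 M F) = lift (fun G => G) 1 F := by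
  funext l
  cases l with
  | nil => rfl
  | cons x l =>
    show cap0 M (fun l' => dup0 M F (x :: l')) l = F (x :: l)
    simp only [cap0, dup0]
    have h : ∀ y, M.u y * ∑ z, M.m x y z * F (z :: l) = ∑ z, (M.u y * M.m x y z) * F (z :: l) := by
      intro y
      rw [Finset.mul_sum]
      exact Finset.sum_congr rfl fun z _ => by ring
    simp only [h]
    rw [Finset.sum_comm]
    have h2 : ∀ z, ∑ y, (M.u y * M.m x y z) * F (z :: l) = (if x = z then 1 else 0) * F (z :: l) := by
      intro z
      rw [← Finset.sum_mul, M.F2']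
    simp only [h2]
    simp

theorem mrg0_ins0 (F : List X → ℝ) : mrg0 M (ins0 M F) = lift (fun G => G) 1 F := by
  funext l
  cases l with
  | nil => rfl
  | cons z l =>
    show ∑ p : X × X, M.m p.1 p.2 z * (M.u p.1 * F (p.2 :: l)) = F (z :: l)
    rw [Fintype.sum_prod_type, Finset.sum_comm]
    have h : ∀ y, ∑ x, M.m x y z * (M.u x * F (y :: l)) = (if y = z then 1 else 0) * F (y :: l) := by
      intro y
      rw [← M.F2 y z, Finset.sum_mul]
      exact Finset.sum_congr rfl fun x _ => by ring
    simp only [h]
    simp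

theorem mrg0_ins1 (F : List X → ℝ) : mrg0 M (lift (ins0 M) 1 F) = lift (fun G => G) 1 F := by
  funext l
  cases l with
  | nil => rfl
  | cons z l =>
    show ∑ p : X × X, M.m p.1 p.2 z * (M.u p.2 * F (p.1 :: l)) = F (z :: l)
    rw [Fintype.sum_prod_type]
    have h : ∀ x, ∑ y, M.m x y z * (M.u y * F (x :: l)) = (if x = z then 1 else 0) * F (x :: l) := by
      intro x
      rw [← M.F2' x z, Finset.sum_mul]
      exact Finset.sum_congr rfl fun y _ => by ring
    simp only [h]
    simp

theorem mrg0_dup0 (F : List X → ℝ) : mrg0 M (dup0 M F) = lift (fun G => G) 1 F := by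
  funext l
  cases l with
  | nil => rfl
  | cons z l =>
    show ∑ p : X × X, M.m p.1 p.2 z * (∑ w, M.m p.1 p.2 w * F (w :: l)) = F (z :: l)
    have h : ∀ p : X × X, M.m p.1 p.2 z * (∑ w, M.m p.1 p.2 w * F (w :: l)) =
        ∑ w, (M.m p.1 p.2 z * M.m p.1 p.2 w) * F (w :: l) := by
      intro p
      rw [Finset.mul_sum]
      exact Finset.sum_congr rfl fun w _ => by ring
    simp only [h]
    rw [Finset.sum_comm]
    have h2 : ∀ w, ∑ p : X × X, (M.m p.1 p.2 z * M.m p.1 p.2 w) * F (w :: l) =
        (if z = w then 1 else 0) * F (w :: l) := by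
      intro w
      rw [← Finset.sum_mul, Fintype.sum_prod_type, M.F3]
    simp only [h2]
    simp

theorem mrg0_dup1 (F : List X → ℝ) : mrg0 M (lift (dup0 M) 1 F) = dup0 M (mrg0 M F) := by
  funext l
  match l with
  | [] => rfl
  | [z] =>
    show ∑ p : X × X, M.m p.1 p.2 z * (0 : ℝ) = 0
    simp
  | z :: x2 :: l =>
    show ∑ p : X × X, M.m p.1 p.2 z * (∑ v, M.m p.2 x2 v * F (p.1 :: v :: l)) =
      ∑ w, M.m z x2 w * ∑ p : X × X, M.m p.1 p.2 w * F (p.1 :: p.2 :: l)
    rw [Fintype.sum_prod_type]
    have hL : ∀ x0, ∑ x1, M.m x0 x1 z * (∑ v, M.m x1 x2 v * F (x0 :: v :: l)) =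
        ∑ v, (∑ x1, M.m x0 x1 z * M.m x1 x2 v) * F (x0 :: v :: l) := by
      intro x0
      simp only [Finset.mul_sum, Finset.sum_mul]
      rw [Finset.sum_comm]
      exact Finset.sum_congr rfl fun v _ => Finset.sum_congr rfl fun x1 _ => by ring
    simp only [hL, M.F4]
    have hR : ∀ w, M.m z x2 w * ∑ p : X × X, M.m p.1 p.2 w * F (p.1 :: p.2 :: l) =
        ∑ x0, ∑ v, (M.m z x2 w * M.m x0 v w) * F (x0 :: v :: l) := by
      intro w
      rw [Fintype.sum_prod_type, Finset.mul_sum]
      refine Finset.sum_congr rfl fun x0 _ => ?_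
      rw [Finset.mul_sum]
      exact Finset.sum_congr rfl fun v _ => by ring
    simp only [hR]
    symm
    rw [Finset.sum_comm]
    refine Finset.sum_congr rfl fun x0 _ => ?_
    rw [Finset.sum_comm]
    refine Finset.sum_congr rfl fun v _ => ?_
    rw [Finset.sum_mul]

theorem mrg1_dup0 (F : List X → ℝ) : lift (mrg0 M) 1 (dup0 M F) = dup0 M (mrg0 M F) := by
  funext l
  match l with
  | [] => rfl
  | [x0] => rfl
  | x0 :: z :: l =>
    show ∑ p : X × X, M.m p.1 p.2 z * (∑ v, M.m x0 p.1 v * F (v :: p.2 :: l)) =
      ∑ w, M.m x0 z w * ∑ p : X × X, M.m p.1 p.2 w * F (p.1 :: p.2 :: l)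
    rw [Fintype.sum_prod_type, Finset.sum_comm]
    have hL : ∀ x2, ∑ x1, M.m x1 x2 z * (∑ v, M.m x0 x1 v * F (v :: x2 :: l)) =
        ∑ v, (∑ x1, M.m x0 x1 v * M.m x1 x2 z) * F (v :: x2 :: l) := by
      intro x2
      simp only [Finset.mul_sum, Finset.sum_mul]
      rw [Finset.sum_comm]
      exact Finset.sum_congr rfl fun v _ => Finset.sum_congr rfl fun x1 _ => by ring
    simp only [hL, M.F4]
    have hR : ∀ w, M.m x0 z w * ∑ p : X × X, M.m p.1 p.2 w * F (p.1 :: p.2 :: l) =
        ∑ x2, ∑ v, (M.m v x2 w * M.m x0 z w) * F (v :: x2 :: l) := by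
      intro w
      rw [Fintype.sum_prod_type, Finset.sum_comm, Finset.mul_sum]
      refine Finset.sum_congr rfl fun x2 _ => ?_
      rw [Finset.mul_sum]
      exact Finset.sum_congr rfl fun v _ => by ring
    simp only [hR]
    symm
    rw [Finset.sum_comm]
    refine Finset.sum_congr rfl fun x2 _ => ?_
    rw [Finset.sum_comm]
    refine Finset.sum_congr rfl fun v _ => ?_
    rw [Finset.sum_mul]

/-! ### pairing -/

/-- the inner product on functions of `k` points -/
noncomputable def ip : ℕ → (List X → ℝ) → (List X → ℝ) → ℝ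
  | 0, F, G => F [] * G []
  | k + 1, F, G => ∑ x, ip k (fun l => F (x :: l)) (fun l => G (x :: l))

theorem ip_eq (k : ℕ) (F G : List X → ℝ) :
    ip k F G = ∑ c : Fin k → X, F (List.ofFn c) * G (List.ofFn c) := by
  induction k generalizing F G with
  | zero => simp [ip]
  | succ k ih =>
    rw [ip]
    rw [← (Fin.consEquiv (fun _ : Fin (k + 1) => X)).sum_comp, Fintype.sum_prod_type]
    refine Finset.sum_congr rfl fun x _ => ?_
    rw [ih]
    refine Finset.sum_congr rfl fun c _ => ?_
    simp [Fin.consEquiv, List.ofFn_succ]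

theorem ip_add_right (k : ℕ) (F G G' : List X → ℝ) :
    ip k F (fun l => G l + G' l) = ip k F G + ip k F G' := by
  simp only [ip_eq]
  rw [← Finset.sum_add_distrib]
  exact Finset.sum_congr rfl fun c _ => by ring

theorem ip_smul_right (k : ℕ) (a : ℝ) (F G : List X → ℝ) :
    ip k F (fun l => a * G l) = a * ip k F G := by
  simp only [ip_eq]
  rw [Finset.mul_sum]
  exact Finset.sum_congr rfl fun c _ => by ring

theorem ip_smul_left (k : ℕ) (a : ℝ) (F G : List X → ℝ) :
    ip k (fun l => a * F l) G = a * ip k F G := by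
  simp only [ip_eq]
  rw [Finset.mul_sum]
  exact Finset.sum_congr rfl fun c _ => by ring

theorem ip_sum_right {ι : Type} (s : Finset ι) (k : ℕ) (a : ι → ℝ) (F : List X → ℝ)
    (G : ι → List X → ℝ) :
    ip k F (fun l => ∑ i ∈ s, a i * G i l) = ∑ i ∈ s, a i * ip k F (G i) := by
  simp only [ip_eq]
  simp only [Finset.mul_sum]
  rw [Finset.sum_comm]
  exact Finset.sum_congr rfl fun c _ => Finset.sum_congr rfl fun c _ => by ring

theorem ip_sum_left {ι : Type} (s : Finset ι) (k : ℕ) (a : ι → ℝ) (F : ι → List X → ℝ)
    (G : List X → ℝ) :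
    ip k (fun l => ∑ i ∈ s, a i * F i l) G = ∑ i ∈ s, a i * ip k (F i) G := by
  simp only [ip_eq]
  simp only [Finset.mul_sum, Finset.sum_mul]
  rw [Finset.sum_comm]
  exact Finset.sum_congr rfl fun c _ => Finset.sum_congr rfl fun c _ => by ring

theorem ip_ins (i r : ℕ) (F G : List X → ℝ) :
    ip (i + r + 1) (lift (ins0 M) i F) G = ip (i + r) F (lift (cap0 M) i G) := by
  induction i generalizing F G with
  | zero =>
    rw [Nat.zero_add]
    show ∑ x, ip r (fun l => M.u x * F l) (fun l => G (x :: l)) =
      ip r F (fun l => ∑ x, M.u x * G (x :: l))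
    rw [ip_sum_right univ r M.u F (fun x l => G (x :: l))]
    exact Finset.sum_congr rfl fun x _ => ip_smul_left _ _ _ _
  | succ i ih =>
    have e1 : i + 1 + r + 1 = (i + r + 1) + 1 := by omega
    have e2 : i + 1 + r = (i + r) + 1 := by omega
    rw [e1, e2]
    show ∑ x, ip (i + r + 1) (lift (ins0 M) i (fun l => F (x :: l))) (fun l => G (x :: l)) =
      ∑ x, ip (i + r) (fun l => F (x :: l)) (lift (cap0 M) i (fun l => G (x :: l)))
    exact Finset.sum_congr rfl fun x _ => ih _ _

theorem ip_dup (i r : ℕ) (F G : List X → ℝ) :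
    ip (i + r + 2) (lift (dup0 M) i F) G = ip (i + r + 1) F (lift (mrg0 M) i G) := by
  induction i generalizing F G with
  | zero =>
    rw [Nat.zero_add]
    show ∑ x, ∑ y, ip r (fun l => ∑ z, M.m x y z * F (z :: l)) (fun l => G (x :: y :: l)) =
      ∑ z, ip r (fun l => F (z :: l)) (fun l => ∑ p : X × X, M.m p.1 p.2 z * G (p.1 :: p.2 :: l))
    have h1 : ∀ z, ip r (fun l => F (z :: l))
        (fun l => ∑ p : X × X, M.m p.1 p.2 z * G (p.1 :: p.2 :: l)) =
        ∑ x, ∑ y, M.m x y z * ip r (fun l => F (z :: l)) (fun l => G (x :: y :: l)) := by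
      intro z
      rw [ip_sum_right univ r (fun p : X × X => M.m p.1 p.2 z) (fun l => F (z :: l))
        (fun p l => G (p.1 :: p.2 :: l)), Fintype.sum_prod_type]
    have h2 : ∀ x y, ip r (fun l => ∑ z, M.m x y z * F (z :: l)) (fun l => G (x :: y :: l)) =
        ∑ z, M.m x y z * ip r (fun l => F (z :: l)) (fun l => G (x :: y :: l)) := by
      intro x y
      exact ip_sum_left univ r (fun z => M.m x y z) (fun z l => F (z :: l)) _
    simp only [h1, h2]
    symm
    rw [Finset.sum_comm]
    refine Finset.sum_congr rfl fun x _ => ?_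
    rw [Finset.sum_comm]
  | succ i ih =>
    have e1 : i + 1 + r + 2 = (i + r + 2) + 1 := by omega
    have e2 : i + 1 + r + 1 = (i + r + 1) + 1 := by omega
    rw [e1, e2]
    show ∑ x, ip (i + r + 2) (lift (dup0 M) i (fun l => F (x :: l))) (fun l => G (x :: l)) =
      ∑ x, ip (i + r + 1) (fun l => F (x :: l)) (lift (mrg0 M) i (fun l => G (x :: l)))
    exact Finset.sum_congr rfl fun x _ => ih _ _

end model

/-! ### reduction of words -/

theorem cap_word {n : ℕ} (W : Word n) : ∀ (k : ℕ) (hn : n = k + 1) (j : ℕ), j ≤ k →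
    ∃ (N : ℕ) (W' : Word k), ∀ (X : Type) [Fintype X] (M : Model X),
      lift (cap0 M) j (eval M W) = fun l => M.q ^ N * eval M W' l := by
  induction W with
  | nil =>
    intro k hn
    omega
  | @ins m i hi W ih =>
    intro k hn j hj
    obtain rfl : m = k := by omega
    rcases lt_trichotomy i j with h | h | h
    · -- i < j
      obtain ⟨e, rfl⟩ : ∃ e, j = i + (e + 1) := ⟨j - i - 1, by omega⟩
      obtain ⟨k', rfl⟩ : ∃ k', m = k' + 1 := ⟨m - 1, by omega⟩
      obtain ⟨N, W', hW'⟩ := ih k' rfl (i + e) (by omega)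
      refine ⟨N, Word.ins i (by omega) W', ?_⟩
      intro X _ M
      have h1 : lift (cap0 M) (i + (e + 1)) (eval M (Word.ins i hi W)) =
          lift (ins0 M) i (lift (cap0 M) (i + e) (eval M W)) := by
        show lift (cap0 M) (i + (e + 1)) (lift (ins0 M) i (eval M W)) = _
        rw [lift_lift, lift_comp, lift_lift (cap0 M) i e, lift_comp]
        exact lift_congr (fun F => ins0_lift M (lin_cap0 M) e F) i _
      rw [h1, hW', (lift_lin (lin_ins0 M) i).smul]
      rfl
    · subst h
      refine ⟨1, W, ?_⟩
      intro X _ M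
      show lift (cap0 M) i (lift (ins0 M) i (eval M W)) = _
      rw [lift_comp, lift_congr (fun F => cap0_ins0 M F)]
      have h2 : lift (fun F : List X → ℝ => fun l => M.q * F l) i (eval M W) =
          fun l => M.q * lift (fun F : List X → ℝ => F) i (eval M W) l := by
        have hl : Lin (fun F : List X → ℝ => F) := ⟨fun _ _ => rfl, fun _ _ => rfl⟩
        rw [← (lift_lin hl i).smul]
        clear ih hn hj
        generalize eval M W = F
        clear hi
        induction i generalizing F with
        | zero => rfl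
        | succ i ih2 =>
          funext l
          cases l with
          | nil => rfl
          | cons x l => exact congrFun (ih2 (fun l' => F (x :: l'))) l
      rw [h2, lift_id i m _ (sp_eval M W) hi]
      simp
    · -- j < i
      obtain ⟨e, rfl⟩ : ∃ e, i = j + (e + 1) := ⟨i - j - 1, by omega⟩
      obtain ⟨k', rfl⟩ : ∃ k', m = k' + 1 := ⟨m - 1, by omega⟩
      obtain ⟨N, W', hW'⟩ := ih k' rfl j (by omega)
      refine ⟨N, Word.ins (j + e) (by omega) W', ?_⟩
      intro X _ M
      have h1 : lift (cap0 M) j (eval M (Word.ins (j + (e + 1)) hi W)) =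
          lift (ins0 M) (j + e) (lift (cap0 M) j (eval M W)) := by
        show lift (cap0 M) j (lift (ins0 M) (j + (e + 1)) (eval M W)) = _
        rw [lift_lift (ins0 M) j (e + 1), lift_comp, lift_lift (ins0 M) j e, lift_comp]
        exact lift_congr (fun F => cap0_lift M (lin_ins0 M) e F) j _
      rw [h1, hW', (lift_lin (lin_ins0 M) (j + e)).smul]
      rfl
  | @dup m i hi W ih =>
    intro k hn j hj
    obtain rfl : k = m + 1 := by omega
    by_cases h0 : j = i
    · subst h0
      refine ⟨0, W, ?_⟩
      intro X _ M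
      show lift (cap0 M) j (lift (dup0 M) j (eval M W)) = _
      rw [lift_comp, lift_congr (fun F => cap0_dup0 M F), ← lift_lift,
        lift_id (j + 1) (m + 1) _ (sp_eval M W) (by omega)]
      simp
    · by_cases h1 : j = i + 1
      · subst h1
        refine ⟨0, W, ?_⟩
        intro X _ M
        show lift (cap0 M) (i + 1) (lift (dup0 M) i (eval M W)) = _
        rw [lift_lift (cap0 M) i 1, lift_comp, lift_congr (fun F => cap1_dup0 M F), ← lift_lift,
          lift_id (i + 1) (m + 1) _ (sp_eval M W) (by omega)]
        simp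
      · rcases lt_or_gt_of_ne h0 with h | h
        · -- j < i
          obtain ⟨e, rfl⟩ : ∃ e, i = j + (e + 1) := ⟨i - j - 1, by omega⟩
          obtain ⟨k', rfl⟩ : ∃ k', m = k' + 1 := ⟨m - 1, by omega⟩
          obtain ⟨N, W', hW'⟩ := ih (k' + 1) rfl j (by omega)
          refine ⟨N, Word.dup (j + e) (by omega) W', ?_⟩
          intro X _ M
          have h1 : lift (cap0 M) j (eval M (Word.dup (j + (e + 1)) hi W)) =
              lift (dup0 M) (j + e) (lift (cap0 M) j (eval M W)) := by
            show lift (cap0 M) j (lift (dup0 M) (j + (e + 1)) (eval M W)) = _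
            rw [lift_lift (dup0 M) j (e + 1), lift_comp, lift_lift (dup0 M) j e, lift_comp]
            exact lift_congr (fun F => cap0_lift M (lin_dup0 M) e F) j _
          rw [h1, hW', (lift_lin (lin_dup0 M) (j + e)).smul]
          rfl
        · -- i + 1 < j
          obtain ⟨e, rfl⟩ : ∃ e, j = i + (e + 2) := ⟨j - i - 2, by omega⟩
          obtain ⟨k', rfl⟩ : ∃ k', m = k' + 1 := ⟨m - 1, by omega⟩
          obtain ⟨N, W', hW'⟩ := ih (k' + 1) rfl (i + (e + 1)) (by omega)
          refine ⟨N, Word.dup i (by omega) W', ?_⟩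
          intro X _ M
          have h1 : lift (cap0 M) (i + (e + 2)) (eval M (Word.dup i hi W)) =
              lift (dup0 M) i (lift (cap0 M) (i + (e + 1)) (eval M W)) := by
            show lift (cap0 M) (i + (e + 2)) (lift (dup0 M) i (eval M W)) = _
            rw [lift_lift (cap0 M) i (e + 2), lift_comp, lift_lift (cap0 M) i (e + 1), lift_comp]
            exact lift_congr (fun F => dup0_lift M (lin_cap0 M) e F) i _
          rw [h1, hW', (lift_lin (lin_dup0 M) i).smul]
          rfl

theorem mrg_word {n : ℕ} (W : Word n) : ∀ (k : ℕ) (hn : n = k + 2) (j : ℕ), j ≤ k →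
    ∃ (N : ℕ) (W' : Word (k + 1)), ∀ (X : Type) [Fintype X] (M : Model X),
      lift (mrg0 M) j (eval M W) = fun l => M.q ^ N * eval M W' l := by
  induction W with
  | nil =>
    intro k hn
    omega
  | @ins m i hi W ih =>
    intro k hn j hj
    obtain rfl : m = k + 1 := by omega
    by_cases h0 : i = j
    · subst h0
      refine ⟨0, W, ?_⟩
      intro X _ M
      show lift (mrg0 M) i (lift (ins0 M) i (eval M W)) = _
      rw [lift_comp, lift_congr (fun F => mrg0_ins0 M F), ← lift_lift,
        lift_id (i + 1) (k + 1) _ (sp_eval M W) (by omega)]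
      simp
    · by_cases h1 : i = j + 1
      · subst h1
        refine ⟨0, W, ?_⟩
        intro X _ M
        show lift (mrg0 M) j (lift (ins0 M) (j + 1) (eval M W)) = _
        rw [lift_lift (ins0 M) j 1, lift_comp, lift_congr (fun F => mrg0_ins1 M F), ← lift_lift,
          lift_id (j + 1) (k + 1) _ (sp_eval M W) (by omega)]
        simp
      · rcases lt_or_gt_of_ne h0 with h | h
        · -- i < j
          obtain ⟨e, rfl⟩ : ∃ e, j = i + (e + 1) := ⟨j - i - 1, by omega⟩
          obtain ⟨k', rfl⟩ : ∃ k', k = k' + 1 := ⟨k - 1, by omega⟩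
          obtain ⟨N, W', hW'⟩ := ih k' rfl (i + e) (by omega)
          refine ⟨N, Word.ins i (by omega) W', ?_⟩
          intro X _ M
          have h1 : lift (mrg0 M) (i + (e + 1)) (eval M (Word.ins i hi W)) =
              lift (ins0 M) i (lift (mrg0 M) (i + e) (eval M W)) := by
            show lift (mrg0 M) (i + (e + 1)) (lift (ins0 M) i (eval M W)) = _
            rw [lift_lift, lift_comp, lift_lift (mrg0 M) i e, lift_comp]
            exact lift_congr (fun F => ins0_lift M (lin_mrg0 M) e F) i _
          rw [h1, hW', (lift_lin (lin_ins0 M) i).smul]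
          rfl
        · -- j + 1 < i
          obtain ⟨e, rfl⟩ : ∃ e, i = j + (e + 2) := ⟨i - j - 2, by omega⟩
          obtain ⟨k', rfl⟩ : ∃ k', k = k' + 1 := ⟨k - 1, by omega⟩
          obtain ⟨N, W', hW'⟩ := ih k' rfl j (by omega)
          refine ⟨N, Word.ins (j + (e + 1)) (by omega) W', ?_⟩
          intro X _ M
          have h1 : lift (mrg0 M) j (eval M (Word.ins (j + (e + 2)) hi W)) =
              lift (ins0 M) (j + (e + 1)) (lift (mrg0 M) j (eval M W)) := by
            show lift (mrg0 M) j (lift (ins0 M) (j + (e + 2)) (eval M W)) = _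
            rw [lift_lift (ins0 M) j (e + 2), lift_comp, lift_lift (ins0 M) j (e + 1), lift_comp]
            exact lift_congr (fun F => mrg0_lift M (lin_ins0 M) e F) j _
          rw [h1, hW', (lift_lin (lin_ins0 M) (j + (e + 1))).smul]
          rfl
  | @dup m i hi W ih =>
    intro k hn j hj
    obtain rfl : m = k := by omega
    by_cases h0 : i = j
    · subst h0
      refine ⟨0, W, ?_⟩
      intro X _ M
      show lift (mrg0 M) i (lift (dup0 M) i (eval M W)) = _
      rw [lift_comp, lift_congr (fun F => mrg0_dup0 M F), ← lift_lift,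
        lift_id (i + 1) (m + 1) _ (sp_eval M W) (by omega)]
      simp
    · by_cases h1 : i = j + 1
      · subst h1
        obtain ⟨k', rfl⟩ : ∃ k', m = k' + 1 := ⟨m - 1, by omega⟩
        obtain ⟨N, W', hW'⟩ := ih k' rfl j (by omega)
        refine ⟨N, Word.dup j (by omega) W', ?_⟩
        intro X _ M
        have h1 : lift (mrg0 M) j (eval M (Word.dup (j + 1) hi W)) =
            lift (dup0 M) j (lift (mrg0 M) j (eval M W)) := by
          show lift (mrg0 M) j (lift (dup0 M) (j + 1) (eval M W)) = _
          rw [lift_lift (dup0 M) j 1, lift_comp, lift_comp]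
          exact lift_congr (fun F => mrg0_dup1 M F) j _
        rw [h1, hW', (lift_lin (lin_dup0 M) j).smul]
        rfl
      · by_cases h2 : j = i + 1
        · subst h2
          obtain ⟨k', rfl⟩ : ∃ k', m = k' + 1 := ⟨m - 1, by omega⟩
          obtain ⟨N, W', hW'⟩ := ih k' rfl i (by omega)
          refine ⟨N, Word.dup i (by omega) W', ?_⟩
          intro X _ M
          have h1 : lift (mrg0 M) (i + 1) (eval M (Word.dup i hi W)) =
              lift (dup0 M) i (lift (mrg0 M) i (eval M W)) := by
            show lift (mrg0 M) (i + 1) (lift (dup0 M) i (eval M W)) = _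
            rw [lift_lift (mrg0 M) i 1, lift_comp, lift_comp]
            exact lift_congr (fun F => mrg1_dup0 M F) i _
          rw [h1, hW', (lift_lin (lin_dup0 M) i).smul]
          rfl
        · rcases lt_or_gt_of_ne h0 with h | h
          · -- i + 1 < j
            obtain ⟨e, rfl⟩ : ∃ e, j = i + (e + 2) := ⟨j - i - 2, by omega⟩
            obtain ⟨k', rfl⟩ : ∃ k', m = k' + 1 := ⟨m - 1, by omega⟩
            obtain ⟨N, W', hW'⟩ := ih k' rfl (i + (e + 1)) (by omega)
            refine ⟨N, Word.dup i (by omega) W', ?_⟩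
            intro X _ M
            have h1 : lift (mrg0 M) (i + (e + 2)) (eval M (Word.dup i hi W)) =
                lift (dup0 M) i (lift (mrg0 M) (i + (e + 1)) (eval M W)) := by
              show lift (mrg0 M) (i + (e + 2)) (lift (dup0 M) i (eval M W)) = _
              rw [lift_lift (mrg0 M) i (e + 2), lift_comp, lift_lift (mrg0 M) i (e + 1), lift_comp]
              exact lift_congr (fun F => dup0_lift M (lin_mrg0 M) e F) i _
            rw [h1, hW', (lift_lin (lin_dup0 M) i).smul]
            rfl
          · -- j + 1 < i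
            obtain ⟨e, rfl⟩ : ∃ e, i = j + (e + 2) := ⟨i - j - 2, by omega⟩
            obtain ⟨k', rfl⟩ : ∃ k', m = k' + 1 := ⟨m - 1, by omega⟩
            obtain ⟨N, W', hW'⟩ := ih k' rfl j (by omega)
            refine ⟨N, Word.dup (j + (e + 1)) (by omega) W', ?_⟩
            intro X _ M
            have h1 : lift (mrg0 M) j (eval M (Word.dup (j + (e + 2)) hi W)) =
                lift (dup0 M) (j + (e + 1)) (lift (mrg0 M) j (eval M W)) := by
              show lift (mrg0 M) j (lift (dup0 M) (j + (e + 2)) (eval M W)) = _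
              rw [lift_lift (dup0 M) j (e + 2), lift_comp, lift_lift (dup0 M) j (e + 1), lift_comp]
              exact lift_congr (fun F => mrg0_lift M (lin_dup0 M) e F) j _
            rw [h1, hW', (lift_lin (lin_dup0 M) (j + (e + 1))).smul]
            rfl

theorem ip_word {n : ℕ} (W : Word n) : ∀ (W' : Word n), ∃ N : ℕ, ∀ (X : Type) [Fintype X]
    (M : Model X), ip n (eval M W) (eval M W') = M.q ^ N := by
  induction W with
  | nil =>
    intro W'
    refine ⟨0, ?_⟩
    intro X _ M
    cases W'
    simp [ip, eval]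
  | @ins m i hi W ih =>
    intro W'
    obtain ⟨N, W'', h⟩ := cap_word W' m rfl i hi
    obtain ⟨N', h'⟩ := ih W''
    refine ⟨N + N', ?_⟩
    intro X _ M
    obtain ⟨r, rfl⟩ : ∃ r, m = i + r := ⟨m - i, by omega⟩
    show ip (i + r + 1) (lift (ins0 M) i (eval M W)) (eval M W') = _
    rw [ip_ins, h, ip_smul_right, h', pow_add]
  | @dup m i hi W ih =>
    intro W'
    obtain ⟨N, W'', h⟩ := mrg_word W' m rfl i hi
    obtain ⟨N', h'⟩ := ih W''
    refine ⟨N + N', ?_⟩
    intro X _ M
    obtain ⟨r, rfl⟩ : ∃ r, m = i + r := ⟨m - i, by omega⟩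
    show ip (i + r + 2) (lift (dup0 M) i (eval M W)) (eval M W') = _
    rw [ip_dup, h, ip_smul_right, h', pow_add]

end Ip

theorem IP_ok : S_IP := by
  intro k W W'
  obtain ⟨N, h⟩ := Ip.ip_word W W'
  refine ⟨N, ?_⟩
  intro X _ M
  rw [← Ip.ip_eq, h]

end Pool.Agent.R730.RP
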