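import Pool.Agent.R730.RP.Stm

set_option autoImplicit false

namespace Pool.Agent.R730.RP

open Finset
open scoped Classical

namespace MAINA

/-- The boundary partition of a subgraph of a cross-free graph is non-crossing. -/
theorem nc_of_crossFree {V : Type} {k : ℕ} {H A : SimpleGraph V} {b : Fin k → V}
    (hc : CrossFree H b) (hA : A ≤ H) {s : Setoid (Fin k)}
    (hs : ∀ x y, s.r x y ↔ A.Reachable (b x) (b y)) : NC s := by
  intro i j l m hij hjl hlm hil hjm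
  rw [hs] at hil hjm ⊢
  obtain ⟨w⟩ := hil
  obtain ⟨w'⟩ := hjm
  obtain ⟨x, hx, hx'⟩ := hc i j l m hij hjl hlm (w.mapLe hA) (w'.mapLe hA)
  rw [SimpleGraph.Walk.support_mapLe_eq_support] at hx hx'
  exact ⟨(w.takeUntil x hx).append (w'.takeUntil x hx').reverse⟩

/-- The polynomial of a pair of boundary expansions. -/
noncomputable def PP {k : ℕ} (Z Z' : Setoid (Fin k) → Polynomial ℝ) : Polynomial ℝ :=
  ∑ s : Setoid (Fin k), ∑ s' : Setoid (Fin k),
    Z s * Z' s' * Polynomial.X ^ Nat.card (Quotient (s ⊔ s'))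

theorem eval_PP {k : ℕ} (Z Z' : Setoid (Fin k) → Polynomial ℝ) (q : ℝ) :
    (PP Z Z').eval q = ∑ s : Setoid (Fin k), ∑ s' : Setoid (Fin k),
      (Z s).eval q * (Z' s').eval q * q ^ Nat.card (Quotient (s ⊔ s')) := by
  unfold PP
  rw [Polynomial.eval_finsetSum]
  apply Finset.sum_congr rfl
  intro s _
  rw [Polynomial.eval_finsetSum]
  apply Finset.sum_congr rfl
  intro s' _
  rw [Polynomial.eval_mul, Polynomial.eval_mul, Polynomial.eval_pow, Polynomial.eval_X]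

theorem eq_of_nat {p p' : Polynomial ℝ} (h : ∀ n : ℕ, p.eval (n : ℝ) = p'.eval (n : ℝ)) :
    p = p' := by
  apply Polynomial.eq_of_infinite_eval_eq
  apply Set.Infinite.mono (s := Set.range (fun n : ℕ => (n : ℝ)))
  · rintro _ ⟨n, rfl⟩
    exact h n
  · exact Set.infinite_range_of_injective Nat.cast_injective

theorem chrom_eq (hG : S_GLUE) (hC : S_CNT) {U V W : Type} [Fintype U] [Fintype V] [Fintype W]
    {k : ℕ} {G : SimpleGraph U} {H : SimpleGraph V} {b : Fin k → V} {K : SimpleGraph W}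
    {c : Fin k → W} (hg : IsGluing G H b K c) {p : Polynomial ℝ} (hp : IsChrom G p)
    {Z Z' : Setoid (Fin k) → Polynomial ℝ}
    (hZ : ∀ (n : ℕ) (d : Fin k → Fin n), (bc H b n d : ℝ) =
      ∑ s : Setoid (Fin k), (Z s).eval (n : ℝ) *
        (if ∀ x y, s.r x y → d x = d y then (1 : ℝ) else 0))
    (hZ' : ∀ (n : ℕ) (d : Fin k → Fin n), (bc K c n d : ℝ) =
      ∑ s : Setoid (Fin k), (Z' s).eval (n : ℝ) *
        (if ∀ x y, s.r x y → d x = d y then (1 : ℝ) else 0)) :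
    p = PP Z Z' := by
  apply eq_of_nat
  intro n
  rw [hp n, hG U V W k G H b K c hg n, eval_PP]
  push_cast
  have h1 : ∀ d : Fin k → Fin n, (bc H b n d : ℝ) * (bc K c n d : ℝ) =
      ∑ s : Setoid (Fin k), ∑ s' : Setoid (Fin k), (Z s).eval (n : ℝ) * (Z' s').eval (n : ℝ) *
        ((if ∀ x y, s.r x y → d x = d y then (1 : ℝ) else 0) *
          (if ∀ x y, s'.r x y → d x = d y then (1 : ℝ) else 0)) := by
    intro d
    rw [hZ n d, hZ' n d, Finset.sum_mul_sum]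
    apply Finset.sum_congr rfl
    intro s _
    apply Finset.sum_congr rfl
    intro s' _
    ring
  simp_rw [h1]
  rw [Finset.sum_comm]
  apply Finset.sum_congr rfl
  intro s _
  rw [Finset.sum_comm]
  apply Finset.sum_congr rfl
  intro s' _
  have h2 := hC k (Fin n) s s'
  rw [Fintype.card_fin] at h2
  rw [← Finset.mul_sum, ← h2]
  congr!

theorem eval_eq {k : ℕ} {q : ℝ} {I : Type} [Fintype I] {x : Setoid (Fin k) → I → ℝ}
    (hx : ∀ s s' : Setoid (Fin k), NC s → NC s' →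
      ∑ i, x s i * x s' i = q ^ Nat.card (Quotient (s ⊔ s')))
    {Z Z' : Setoid (Fin k) → Polynomial ℝ} (hZ : ∀ s, Z s ≠ 0 → NC s)
    (hZ' : ∀ s, Z' s ≠ 0 → NC s) :
    (PP Z Z').eval q = ∑ i, (∑ s, (Z s).eval q * x s i) * (∑ s, (Z' s).eval q * x s i) := by
  rw [eval_PP]
  have h1 : ∀ i : I, (∑ s, (Z s).eval q * x s i) * (∑ s, (Z' s).eval q * x s i) =
      ∑ s : Setoid (Fin k), ∑ s' : Setoid (Fin k), (Z s).eval q * (Z' s').eval q *
        (x s i * x s' i) := by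
    intro i
    rw [Finset.sum_mul_sum]
    apply Finset.sum_congr rfl
    intro s _
    apply Finset.sum_congr rfl
    intro s' _
    ring
  simp_rw [h1]
  rw [Finset.sum_comm (s := (Finset.univ : Finset I))]
  apply Finset.sum_congr rfl
  intro s _
  rw [Finset.sum_comm (s := (Finset.univ : Finset I))]
  apply Finset.sum_congr rfl
  intro s' _
  rw [← Finset.mul_sum]
  by_cases h : Z s = 0
  · rw [h]
    simp
  by_cases h' : Z' s' = 0
  · rw [h']
    simp
  rw [hx s s' (hZ s h) (hZ' s' h')]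

end MAINA

theorem MAIN_ok : S_GLUE → S_FK → S_CNT → S_VEC → S_MAIN := by
  intro hG hF hC hV U U₁ U₂ V W _ _ _ _ _ k H b K c G G₁ G₂ hH hK hg hg₁ hg₂ p p₁ p₂ hp hp₁ hp₂
    q hq
  obtain ⟨Z, hZ1, hZ2⟩ := hF V k H b
  obtain ⟨Z', hZ'1, hZ'2⟩ := hF W k K c
  have hZn : ∀ s, Z s ≠ 0 → NC s := by
    intro s hs
    obtain ⟨A, hA, hAs⟩ := hZ1 s hs
    exact MAINA.nc_of_crossFree hH hA hAs
  have hZn' : ∀ s, Z' s ≠ 0 → NC s := by
    intro s hs
    obtain ⟨A, hA, hAs⟩ := hZ'1 s hs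
    exact MAINA.nc_of_crossFree hK hA hAs
  obtain ⟨I, hI, x, hx⟩ := hV k q hq
  have e := MAINA.chrom_eq hG hC hg hp hZ2 hZ'2
  have e₁ := MAINA.chrom_eq hG hC hg₁ hp₁ hZ2 hZ2
  have e₂ := MAINA.chrom_eq hG hC hg₂ hp₂ hZ'2 hZ'2
  rw [e, e₁, e₂, MAINA.eval_eq hx hZn hZn', MAINA.eval_eq hx hZn hZn,
    MAINA.eval_eq hx hZn' hZn']
  refine ⟨Finset.sum_nonneg fun i _ => mul_self_nonneg _,
    Finset.sum_nonneg fun i _ => mul_self_nonneg _, ?_⟩
  have h := Finset.sum_mul_sq_le_sq_mul_sq (Finset.univ : Finset I)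
    (fun i => ∑ s, (Z s).eval q * x s i) (fun i => ∑ s, (Z' s).eval q * x s i)
  simpa only [sq] using h

end Pool.Agent.R730.RP
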