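import Pool.Agent.R730.RP.Stm2

/-!
# Piece RP-SYM: symmetric plane graphs
-/

set_option autoImplicit false

namespace Pool.Agent.R730.RP

open Finset
open scoped Classical

namespace SYMx

lemma chrom_bot (k : ℕ) : IsChrom (⊥ : SimpleGraph (Fin k)) ((Polynomial.X : Polynomial ℝ) ^ k) := by
  intro n
  have e : (⊥ : SimpleGraph (Fin k)).Coloring (Fin n) ≃ (Fin k → Fin n) :=
    { toFun := fun C => C
      invFun := fun g => SimpleGraph.Coloring.mk g (by intro v w h; exact absurd h (by simp))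
      left_inv := fun C => by ext; rfl
      right_inv := fun g => rfl }
  rw [Nat.card_congr e, Nat.card_fun, Polynomial.eval_pow, Polynomial.eval_X]
  simp

lemma mk_inj {α : Type} {a a' : α} (h : Sym2.mk a = Sym2.mk a') : a = a' := by
  have h1 := congrFun h a
  rcases Sym2.eq_iff.mp h1 with ⟨h2, _⟩ | ⟨_, h2⟩
  · exact h2
  · exact h2

lemma crossFree_bot (k : ℕ) : CrossFree (⊥ : SimpleGraph (Fin k)) (id : Fin k → Fin k) := by
  intro i j l m hij hjl hlm w w'
  exfalso
  have hne : i ≠ l := (hij.trans hjl).ne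
  cases w with
  | nil => exact hne rfl
  | cons h p => exact absurd h (by simp)

/-- the points of the axis from left to right -/
lemma enum {V : Type} [Fintype V] (f : V → ℝ × ℝ) (hf : Function.Injective f) (k : ℕ)
    (hk : k = Nat.card {v // (f v).2 = 0}) :
    ∃ b : Fin k → V, (∀ t, (f (b t)).2 = 0) ∧ (∀ s t, s < t → (f (b s)).1 < (f (b t)).1) ∧
      ∀ v, (f v).2 = 0 → ∃ t, b t = v := by
  obtain ⟨S, hS⟩ : ∃ S : Finset ℝ, S = (univ.filter fun v : V => (f v).2 = 0).image (fun v => (f v).1) :=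
    ⟨_, rfl⟩
  have hinj : ∀ v w : V, (f v).2 = 0 → (f w).2 = 0 → (f v).1 = (f w).1 → v = w := by
    intro v w h1 h2 h3
    exact hf (Prod.ext h3 (h1.trans h2.symm))
  have hcard : S.card = k := by
    rw [hS, Finset.card_image_of_injOn, hk, Nat.card_eq_fintype_card, Fintype.card_subtype]
    intro v hv w hw h
    rw [Finset.mem_coe, Finset.mem_filter] at hv hw
    exact hinj v w hv.2 hw.2 h
  have hex : ∀ t : Fin k, ∃ v : V, (f v).2 = 0 ∧ (f v).1 = S.orderEmbOfFin hcard t := by
    intro t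
    have h3 : ∀ y, y ∈ S → ∃ v : V, (f v).2 = 0 ∧ (f v).1 = y := by
      intro y hy
      rw [hS, Finset.mem_image] at hy
      obtain ⟨v, hv, hv2⟩ := hy
      rw [Finset.mem_filter] at hv
      exact ⟨v, hv.2, hv2⟩
    exact h3 _ (Finset.orderEmbOfFin_mem S hcard t)
  choose b hb1 hb2 using hex
  refine ⟨b, hb1, ?_, ?_⟩
  · intro s t hst
    rw [hb2, hb2]
    exact (S.orderEmbOfFin hcard).strictMono hst
  · intro v hv
    have h1 : (f v).1 ∈ Set.range (S.orderEmbOfFin hcard) := by
      rw [Finset.range_orderEmbOfFin, Finset.mem_coe, hS, Finset.mem_image]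
      exact ⟨v, by rw [Finset.mem_filter]; exact ⟨Finset.mem_univ _, hv⟩, rfl⟩
    obtain ⟨t, ht⟩ := h1
    exact ⟨t, hinj _ _ (hb1 t) hv (by rw [hb2, ht])⟩

end SYMx

open SYMx in
theorem SYM_ok : S_MAIN → S_HP → S_SYM := by
  intro hM hHP V _ G f γ σ hD hσ hσG hup hno p h hp hh q hq
  obtain ⟨k, hk⟩ : ∃ k : ℕ, k = Nat.card {v // (f v).2 = 0} := ⟨_, rfl⟩
  obtain ⟨b', hb1, hb2, hb3⟩ := enum f hD.1 k hk
  have hinj := hD.1
  have hσσ : ∀ v, σ (σ v) = v := by
    intro v
    apply hinj
    rw [hσ, hσ]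
    exact Prod.ext rfl (neg_neg _)
  have hσinj : Function.Injective σ := fun x y hxy => by rw [← hσσ x, hxy, hσσ]
  have hσax : ∀ v, (f v).2 = 0 → σ v = v := by
    intro v hv
    apply hinj
    rw [hσ, hv, neg_zero]
    exact Prod.ext rfl hv.symm
  obtain ⟨X, hX⟩ : ∃ X : Set V, X = {v | 0 ≤ (f v).2} := ⟨_, rfl⟩
  have hXm : ∀ v, v ∈ X ↔ 0 ≤ (f v).2 := fun v => by rw [hX]; rfl
  rw [← hX] at hh
  let b : Fin k → X := fun t => ⟨b' t, (hXm _).mpr (hb1 t).ge⟩
  have hbinj : Function.Injective b := by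
    intro s t hst
    have h1 : b' s = b' t := congrArg Subtype.val hst
    by_contra hne
    rcases lt_or_gt_of_ne hne with h2 | h2
    · have := hb2 s t h2
      rw [h1] at this
      exact lt_irrefl _ this
    · have := hb2 t s h2
      rw [h1] at this
      exact lt_irrefl _ this
  have hH : ∀ x y : X, (G.induce X).Adj x y ↔ G.Adj x.1 y.1 := fun x y => Iff.rfl
  have hcf : CrossFree (G.induce X) b := by
    refine hHP X k (G.induce X) b (fun v => f v.1) (fun u v => γ u.1 v.1) ⟨?_, ?_, ?_⟩ ?_ ?_ ?_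
    · intro x y hxy
      exact Subtype.ext (hinj hxy)
    · intro u v huv
      obtain ⟨h1, h2, h3, h4, h5⟩ := hD.2.1 u.1 v.1 huv
      exact ⟨h1, h2, h3, h4, fun t ht w => h5 t ht w.1⟩
    · intro u v u' v' huv huv' hne
      refine hD.2.2 u.1 v.1 u'.1 v'.1 huv huv' ?_
      intro he
      apply hne
      obtain ⟨h1, h2⟩ := Prod.mk.inj (mk_inj he)
      rw [Subtype.ext h1, Subtype.ext h2]
    · intro u v huv t ht
      exact hup u.1 v.1 huv ((hXm _).mp u.2) ((hXm _).mp v.2) t ht
    · intro i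
      exact hb1 i
    · intro i j hij
      exact hb2 i j hij
  have g1 : IsGluing (G.induce X) (G.induce X) b (⊥ : SimpleGraph (Fin k)) (id : Fin k → Fin k) := by
    refine ⟨id, b, Function.injective_id, hbinj, fun u => Or.inl ⟨u, rfl⟩, ?_, ?_⟩
    · intro v w
      constructor
      · intro h1
        exact ⟨w, h1, rfl⟩
      · rintro ⟨t, h1, h2⟩
        rw [h1]
        show b t = b w
        rw [h2]
        rfl
    · intro x y
      constructor
      · intro h1
        exact Or.inl ⟨x, y, h1, rfl, rfl⟩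
      · rintro (⟨v, v', h1, h2, h3⟩ | ⟨w, w', h1, _⟩)
        · have e1 : v = x := h2
          have e2 : v' = y := h3
          rw [← e1, ← e2]
          exact h1
        · exact absurd h1 (by simp)
  have g3 : IsGluing (⊥ : SimpleGraph (Fin k)) (⊥ : SimpleGraph (Fin k)) (id : Fin k → Fin k)
      (⊥ : SimpleGraph (Fin k)) (id : Fin k → Fin k) := by
    refine ⟨id, id, Function.injective_id, Function.injective_id, fun u => Or.inl ⟨u, rfl⟩, ?_, ?_⟩
    · intro v w
      constructor
      · intro h1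
        exact ⟨w, h1, rfl⟩
      · rintro ⟨t, h1, h2⟩
        rw [h1, h2]
    · intro x y
      constructor
      · intro h1
        exact absurd h1 (by simp)
      · rintro (⟨v, v', h1, _⟩ | ⟨w, w', h1, _⟩)
        · exact absurd h1 (by simp)
        · exact absurd h1 (by simp)
  have hfσ : ∀ v, (f (σ v)).2 = -(f v).2 := fun v => by rw [hσ]
  have g2 : IsGluing G (G.induce X) b (G.induce X) b := by
    refine ⟨Subtype.val, fun w => σ w.1, Subtype.val_injective,
      fun x y hxy => Subtype.ext (hσinj hxy), ?_, ?_, ?_⟩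
    · intro u
      by_cases hu : 0 ≤ (f u).2
      · exact Or.inl ⟨⟨u, (hXm _).mpr hu⟩, rfl⟩
      · refine Or.inr ⟨⟨σ u, (hXm _).mpr ?_⟩, hσσ u⟩
        rw [hfσ]
        push Not at hu
        linarith
    · intro v w
      constructor
      · intro h1
        have h1' : v.1 = σ w.1 := h1
        have h2 : (f v.1).2 = -(f w.1).2 := by rw [h1', hfσ]
        have h3 := (hXm _).mp v.2
        have h4 := (hXm _).mp w.2
        have h5 : (f w.1).2 = 0 := by linarith
        obtain ⟨t, ht⟩ := hb3 w.1 h5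
        refine ⟨t, ?_, ?_⟩
        · apply Subtype.ext
          rw [h1', hσax _ h5]
          exact ht.symm
        · apply Subtype.ext
          exact ht.symm
      · rintro ⟨t, h1, h2⟩
        rw [h1, h2]
        exact (hσax _ (hb1 t)).symm
    · intro x y
      constructor
      · intro hxy
        by_cases hx : 0 ≤ (f x).2
        · by_cases hy : 0 ≤ (f y).2
          · exact Or.inl ⟨⟨x, (hXm _).mpr hx⟩, ⟨y, (hXm _).mpr hy⟩, hxy, rfl, rfl⟩
          · push Not at hy
            have h1 : (f x).2 ≤ 0 := by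
              by_contra h2
              push Not at h2
              exact hno x y hxy ⟨h2, hy⟩
            refine Or.inr ⟨⟨σ x, (hXm _).mpr ?_⟩, ⟨σ y, (hXm _).mpr ?_⟩, hσG _ _ hxy, hσσ x, hσσ y⟩
            · rw [hfσ]; linarith
            · rw [hfσ]; linarith
        · push Not at hx
          have h1 : (f y).2 ≤ 0 := by
            by_contra h2
            push Not at h2
            exact hno y x hxy.symm ⟨h2, hx⟩
          refine Or.inr ⟨⟨σ x, (hXm _).mpr ?_⟩, ⟨σ y, (hXm _).mpr ?_⟩, hσG _ _ hxy, hσσ x, hσσ y⟩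
          · rw [hfσ]; linarith
          · rw [hfσ]; linarith
      · rintro (⟨v, v', h1, h2, h3⟩ | ⟨w, w', h1, h2, h3⟩)
        · rw [← h2, ← h3]
          exact h1
        · rw [← h2, ← h3]
          exact hσG _ _ h1
  obtain ⟨r1, _, r3⟩ := hM X V (Fin k) X (Fin k) k (G.induce X) b ⊥ id (G.induce X) G ⊥
    hcf (crossFree_bot k) g1 g2 g3 h p (Polynomial.X ^ k) hh hp (chrom_bot k) q hq
  refine ⟨r1, ?_⟩
  rw [← hk]
  rw [Polynomial.eval_pow, Polynomial.eval_X] at r3
  calc h.eval q ^ 2 ≤ p.eval q * q ^ k := r3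
    _ = q ^ k * p.eval q := mul_comm _ _

end Pool.Agent.R730.RP
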