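import Mathlib

/-!
# Reflection positivity of chromatic polynomials at real `q ≥ 4` (MP_0d034c_co)

Definitions and exact statements of the pieces.  Proofs in NOTES.md.
-/

set_option autoImplicit false

namespace Pool.Agent.R730.RP

open Finset
open scoped Classical

/-- `p` is the chromatic polynomial of `G`. -/
def IsChrom {V : Type} (G : SimpleGraph V) (p : Polynomial ℝ) : Prop :=
  ∀ n : ℕ, p.eval (n : ℝ) = (Nat.card (G.Coloring (Fin n)) : ℝ)

/-- No two disjoint paths of `H` cross with respect to the order `b 0, ..., b (k-1)`: for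
`i < j < l < m`, every walk from `b i` to `b l` meets every walk from `b j` to `b m`. -/
def CrossFree {V : Type} {k : ℕ} (H : SimpleGraph V) (b : Fin k → V) : Prop :=
  ∀ i j l m : Fin k, i < j → j < l → l < m →
    ∀ (w : H.Walk (b i) (b l)) (w' : H.Walk (b j) (b m)), ∃ x, x ∈ w.support ∧ x ∈ w'.support

/-- `G` is obtained from (copies of) `H` and `K` by identifying `b t` with `c t` for all `t`. -/
def IsGluing {U V W : Type} {k : ℕ} (G : SimpleGraph U) (H : SimpleGraph V) (b : Fin k → V)
    (K : SimpleGraph W) (c : Fin k → W) : Prop :=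
  ∃ (i : V → U) (j : W → U), Function.Injective i ∧ Function.Injective j ∧
    (∀ u, (∃ v, i v = u) ∨ ∃ w, j w = u) ∧
    (∀ v w, i v = j w ↔ ∃ t, v = b t ∧ w = c t) ∧
    (∀ x y, G.Adj x y ↔ (∃ v v', H.Adj v v' ∧ i v = x ∧ i v' = y) ∨
      (∃ w w', K.Adj w w' ∧ j w = x ∧ j w' = y))

/-- The number of proper `n`-colourings of `H` with prescribed colours `s t` at `b t`. -/
noncomputable def bc {V : Type} {k : ℕ} (H : SimpleGraph V) (b : Fin k → V) (n : ℕ)
    (s : Fin k → Fin n) : ℕ :=
  Nat.card {f : H.Coloring (Fin n) // ∀ t, f (b t) = s t}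

/-- Non-crossing partitions. -/
def NC {k : ℕ} (s : Setoid (Fin k)) : Prop :=
  ∀ i j l m : Fin k, i < j → j < l → l < m → s.r i l → s.r j m → s.r i j

noncomputable instance instFintypeSetoid (k : ℕ) : Fintype (Setoid (Fin k)) :=
  Fintype.ofInjective (fun s : Setoid (Fin k) => (fun x y => s.r x y : Fin k → Fin k → Prop))
    (by
      intro s s' h
      ext x y
      exact iff_of_eq (congrFun (congrFun h x) y))

/-! ## Graph side -/

/-- Colourings of a gluing. -/
def S_GLUE : Prop := ∀ (U V W : Type) [Fintype U] [Fintype V] [Fintype W] (k : ℕ)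
  (G : SimpleGraph U) (H : SimpleGraph V) (b : Fin k → V) (K : SimpleGraph W) (c : Fin k → W),
  IsGluing G H b K c → ∀ n : ℕ,
    Nat.card (G.Coloring (Fin n)) = ∑ s : Fin k → Fin n, bc H b n s * bc K c n s

/-- Fortuin-Kasteleyn expansion with boundary. -/
def S_FK : Prop := ∀ (V : Type) [Fintype V] (k : ℕ) (H : SimpleGraph V) (b : Fin k → V),
  ∃ Z : Setoid (Fin k) → Polynomial ℝ,
    (∀ s, Z s ≠ 0 → ∃ A : SimpleGraph V, A ≤ H ∧ ∀ x y, s.r x y ↔ A.Reachable (b x) (b y)) ∧
    ∀ (n : ℕ) (c : Fin k → Fin n), (bc H b n c : ℝ) =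
      ∑ s : Setoid (Fin k), (Z s).eval (n : ℝ) *
        (if ∀ x y, s.r x y → c x = c y then (1 : ℝ) else 0)

/-- Counting maps that are constant on the blocks of two partitions. -/
def S_CNT : Prop := ∀ (k : ℕ) (X : Type) [Fintype X] (s s' : Setoid (Fin k)),
  ∑ c : Fin k → X, (if ∀ x y, s.r x y → c x = c y then (1 : ℝ) else 0) *
      (if ∀ x y, s'.r x y → c x = c y then (1 : ℝ) else 0) =
    (Fintype.card X : ℝ) ^ Nat.card (Quotient (s ⊔ s'))

/-- The Gram matrix of the non-crossing partitions is a Gram matrix of real vectors. -/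
def S_VEC : Prop := ∀ (k : ℕ) (q : ℝ), 4 ≤ q →
  ∃ (I : Type) (_ : Fintype I) (x : Setoid (Fin k) → I → ℝ),
    ∀ s s' : Setoid (Fin k), NC s → NC s' →
      ∑ i, x s i * x s' i = q ^ Nat.card (Quotient (s ⊔ s'))

/-- The theorem: Cauchy-Schwarz inequality for gluings at all real `q ≥ 4`. -/
def S_MAIN : Prop := ∀ (U U₁ U₂ V W : Type) [Fintype U] [Fintype U₁] [Fintype U₂] [Fintype V]
  [Fintype W] (k : ℕ) (H : SimpleGraph V) (b : Fin k → V) (K : SimpleGraph W) (c : Fin k → W)
  (G : SimpleGraph U) (G₁ : SimpleGraph U₁) (G₂ : SimpleGraph U₂),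
  CrossFree H b → CrossFree K c →
  IsGluing G H b K c → IsGluing G₁ H b H b → IsGluing G₂ K c K c →
  ∀ p p₁ p₂ : Polynomial ℝ, IsChrom G p → IsChrom G₁ p₁ → IsChrom G₂ p₂ →
  ∀ q : ℝ, 4 ≤ q →
    0 ≤ p₁.eval q ∧ 0 ≤ p₂.eval q ∧ p.eval q ^ 2 ≤ p₁.eval q * p₂.eval q

/-! ## Frobenius models -/

/-- A special Frobenius algebra with an orthonormal basis indexed by `X`: unit `u`, comultiplication
`m`. -/
structure Model (X : Type) [Fintype X] where
  q : ℝ
  u : X → ℝ
  m : X → X → X → ℝ
  F1 : ∑ x, u x * u x = q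
  F2 : ∀ y z, ∑ x, u x * m x y z = if y = z then 1 else 0
  F2' : ∀ x z, ∑ y, u y * m x y z = if x = z then 1 else 0
  F3 : ∀ z z', ∑ x, ∑ y, m x y z * m x y z' = if z = z' then 1 else 0
  F4 : ∀ x0 x2 v z, ∑ x1, m x0 x1 z * m x1 x2 v = ∑ w, m z x2 w * m x0 v w

/-- Apply an operation on functions of lists at position `i`. -/
def lift {X : Type} (op : (List X → ℝ) → List X → ℝ) : ℕ → (List X → ℝ) → List X → ℝ
  | 0, F, l => op F l
  | _ + 1, _, [] => 0
  | i + 1, F, x :: l => lift op i (fun l' => F (x :: l')) l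

/-- Insert a new first point. -/
def ins0 {X : Type} [Fintype X] (M : Model X) (F : List X → ℝ) : List X → ℝ
  | [] => 0
  | x :: l => M.u x * F l

/-- Duplicate the first point. -/
noncomputable def dup0 {X : Type} [Fintype X] (M : Model X) (F : List X → ℝ) : List X → ℝ
  | [] => 0
  | [_] => 0
  | x :: y :: l => ∑ z, M.m x y z * F (z :: l)

/-- Words in the operations: `ins i` inserts a point at position `i`, `dup i` duplicates the point
at position `i`. -/
inductive Word : ℕ → Type
  | nil : Word 0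
  | ins {k : ℕ} (i : ℕ) (hi : i ≤ k) (W : Word k) : Word (k + 1)
  | dup {k : ℕ} (i : ℕ) (hi : i ≤ k) (W : Word (k + 1)) : Word (k + 2)

/-- The vector of a word in a model. -/
noncomputable def eval {X : Type} [Fintype X] (M : Model X) : {k : ℕ} → Word k → List X → ℝ
  | _, .nil => fun l => if l = [] then 1 else 0
  | _, .ins i _ W => lift (ins0 M) i (eval M W)
  | _, .dup i _ W => lift (dup0 M) i (eval M W)

/-- Inner products of words do not depend on the model. -/
def S_IP : Prop := ∀ (k : ℕ) (W W' : Word k), ∃ N : ℕ, ∀ (X : Type) [Fintype X] (M : Model X),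
  ∑ c : Fin k → X, eval M W (List.ofFn c) * eval M W' (List.ofFn c) = M.q ^ N

/-- The Potts model. -/
noncomputable def potts (X : Type) [Fintype X] : Model X where
  q := Fintype.card X
  u := fun _ => 1
  m := fun x y z => if x = y ∧ y = z then 1 else 0
  F1 := by simp
  F2 := by
    intro y z
    by_cases h : y = z
    · subst h
      simp
    · simp [h]
  F2' := by
    intro x z
    by_cases h : x = z
    · subst h
      simp only [and_self, one_mul]
      rw [Finset.sum_eq_single x] <;> simp_all [eq_comm]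
    · simp only [one_mul]
      rw [if_neg h]
      apply Finset.sum_eq_zero
      intro y _
      rw [if_neg]
      rintro ⟨rfl, h2⟩
      exact h h2
  F3 := by
    intro z z'
    by_cases h : z = z'
    · subst h
      rw [if_pos rfl, Finset.sum_eq_single z]
      · rw [Finset.sum_eq_single z] <;> simp_all
      · intro x _ hx
        apply Finset.sum_eq_zero
        intro y _
        rw [if_neg, zero_mul]
        rintro ⟨rfl, rfl⟩
        exact hx rfl
      · simp
    · rw [if_neg h]
      apply Finset.sum_eq_zero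
      intro x _
      apply Finset.sum_eq_zero
      intro y _
      by_cases h1 : x = y ∧ y = z
      · rw [if_neg (c := x = y ∧ y = z'), mul_zero]
        rintro ⟨_, h3⟩
        exact h (h1.2.symm.trans h3)
      · rw [if_neg h1, zero_mul]
  F4 := by
    intro x0 x2 v z
    by_cases h : x0 = z ∧ z = x2 ∧ x2 = v
    · obtain ⟨rfl, rfl, rfl⟩ := h
      rw [Finset.sum_eq_single x0, Finset.sum_eq_single x0] <;> simp_all [eq_comm]
    · rw [Finset.sum_eq_zero, Finset.sum_eq_zero]
      · intro w _
        by_cases h1 : z = x2 ∧ x2 = w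
        · rw [if_neg (c := x0 = v ∧ v = w), mul_zero]
          rintro ⟨h2, h3⟩
          apply h
          obtain ⟨rfl, rfl⟩ := h1
          subst h2
          exact ⟨h3, rfl, h3.symm⟩
        · rw [if_neg h1, zero_mul]
      · intro w _
        by_cases h1 : x0 = w ∧ w = z
        · rw [if_neg (c := w = x2 ∧ x2 = v), mul_zero]
          rintro ⟨h2, h3⟩
          apply h
          obtain ⟨rfl, rfl⟩ := h1
          exact ⟨rfl, h2, h3⟩
        · rw [if_neg h1, zero_mul]

/-- Every non-crossing partition is given by a word. -/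
def S_WORD : Prop := ∀ (k : ℕ) (s : Setoid (Fin k)), NC s → ∃ W : Word k,
  ∀ (X : Type) [Fintype X] (c : Fin k → X), eval (potts X) W (List.ofFn c) =
    if ∀ x y, s.r x y → c x = c y then 1 else 0

/-- A model with any real parameter `q ≥ 4` (deformed 2 by 2 matrices). -/
def S_TL : Prop := ∀ q : ℝ, 4 ≤ q → ∃ M : Model (Bool × Bool), M.q = q

end Pool.Agent.R730.RP
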