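import Mathlib
import Pool.Agent.R730.RP.Stm

/-!
Project RP (MP_0d034c_co): piece TL.
-/

set_option autoImplicit false

namespace Pool.Agent.R730.RP

open Finset
open scoped Classical

namespace TLP

/-- the two diagonal entries -/
noncomputable def U (P Q : ℝ) : Bool → ℝ
  | true => P
  | false => Q

/-- The deformed matrix model. -/
noncomputable def mod (q P Q : ℝ) (hP : P ≠ 0) (hQ : Q ≠ 0) (h1 : P * P + Q * Q = q)
    (h2 : P⁻¹ * P⁻¹ + Q⁻¹ * Q⁻¹ = 1) : Model (Bool × Bool) where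
  q := q
  u := fun x => if x.1 = x.2 then U P Q x.1 else 0
  m := fun x y z => if z.1 = x.1 ∧ y.2 = z.2 ∧ x.2 = y.1 then (U P Q x.2)⁻¹ else 0
  F1 := by
    simp only [Fintype.sum_prod_type, Fintype.sum_bool, U]
    simp
    linarith
  F2 := by
    rintro ⟨a, b⟩ ⟨c, d⟩
    simp only [Fintype.sum_prod_type, Fintype.sum_bool, U]
    cases a <;> cases b <;> cases c <;> cases d <;> simp [hP, hQ]
  F2' := by
    rintro ⟨a, b⟩ ⟨c, d⟩
    simp only [Fintype.sum_prod_type, Fintype.sum_bool]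
    cases a <;> cases b <;> cases c <;> cases d <;> simp [hP, hQ, U]
  F3 := by
    rintro ⟨a, b⟩ ⟨c, d⟩
    simp only [Fintype.sum_prod_type, Fintype.sum_bool]
    cases a <;> cases b <;> cases c <;> cases d <;> simp [U] <;> linarith
  F4 := by
    rintro ⟨a, b⟩ ⟨c, d⟩ ⟨e, f⟩ ⟨g, h⟩
    simp only [Fintype.sum_prod_type, Fintype.sum_bool]
    cases a <;> cases b <;> cases c <;> cases d <;> cases e <;> cases f <;> cases g <;> cases h <;>
      simp [U, mul_comm]

end TLP

theorem TL_ok : S_TL := by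
  intro q hq
  set s := Real.sqrt (q ^ 2 - 4 * q) with hs
  have hd : 0 ≤ q ^ 2 - 4 * q := by nlinarith
  have hs2 : s * s = q ^ 2 - 4 * q := Real.mul_self_sqrt hd
  have hs0 : 0 ≤ s := Real.sqrt_nonneg _
  have hsq : s < q := by nlinarith
  set x := (q + s) / 2 with hx
  set y := (q - s) / 2 with hy
  have hx0 : 0 < x := by rw [hx]; linarith
  have hy0 : 0 < y := by rw [hy]; linarith
  have hxy : x + y = q := by rw [hx, hy]; ring
  have hxy2 : x * y = q := by rw [hx, hy]; linarith [hs2, show (q + s) / 2 * ((q - s) / 2) = (q ^ 2 - s * s) / 4 by ring]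
  have hP : Real.sqrt x ≠ 0 := (Real.sqrt_pos.2 hx0).ne'
  have hQ : Real.sqrt y ≠ 0 := (Real.sqrt_pos.2 hy0).ne'
  refine ⟨TLP.mod q (Real.sqrt x) (Real.sqrt y) hP hQ ?_ ?_, rfl⟩
  · rw [Real.mul_self_sqrt hx0.le, Real.mul_self_sqrt hy0.le, hxy]
  · rw [← mul_inv, ← mul_inv, Real.mul_self_sqrt hx0.le, Real.mul_self_sqrt hy0.le]
    field_simp
    linarith

end Pool.Agent.R730.RP
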