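import Pool.Agent.R730.RP.Stm

/-!
# Reflection positivity: non-crossing partitions are given by words
-/

set_option autoImplicit false

namespace Pool.Agent.R730.RP

open Finset
open scoped Classical

namespace WordAux

theorem lift_ins {X : Type} [Fintype X] : ∀ (i k : ℕ) (hi : i ≤ k) (F : List X → ℝ)
    (c : Fin (k + 1) → X), lift (ins0 (potts X)) i F (List.ofFn c) =
      F (List.ofFn fun j : Fin k => c (Fin.succAbove ⟨i, by omega⟩ j)) := by
  intro i
  induction i with
  | zero =>
    intro k hi F c
    rw [List.ofFn_succ]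
    show (potts X).u (c 0) * F (List.ofFn fun i => c i.succ) = _
    have e : (fun j : Fin k => c (Fin.succAbove ⟨0, by omega⟩ j)) = fun i => c i.succ := by
      funext j
      rw [show (⟨0, by omega⟩ : Fin (k + 1)) = 0 from rfl, Fin.succAbove_zero]
    rw [e]
    simp [potts]
  | succ i ih =>
    intro k hi F c
    obtain ⟨k', rfl⟩ : ∃ k', k = k' + 1 := ⟨k - 1, by omega⟩
    rw [List.ofFn_succ]
    show lift (ins0 (potts X)) i (fun l' => F (c 0 :: l')) (List.ofFn fun i => c i.succ) = _
    rw [ih k' (by omega) (fun l' => F (c 0 :: l')) fun i => c i.succ]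
    show F (c 0 :: List.ofFn fun j : Fin k' => c (Fin.succAbove ⟨i, by omega⟩ j).succ) = _
    congr 1
    rw [List.ofFn_succ (f := fun j : Fin (k' + 1) => c (Fin.succAbove ⟨i + 1, by omega⟩ j))]
    have e0 : (⟨i + 1, by omega⟩ : Fin (k' + 1 + 1)) = (⟨i, by omega⟩ : Fin (k' + 1)).succ := rfl
    rw [e0, Fin.succ_succAbove_zero]
    simp only [Fin.succ_succAbove_succ]

theorem lift_dup {X : Type} [Fintype X] : ∀ (i k : ℕ) (hi : i ≤ k) (F : List X → ℝ)
    (c : Fin (k + 2) → X), lift (dup0 (potts X)) i F (List.ofFn c) =
      if c ⟨i, by omega⟩ = c ⟨i + 1, by omega⟩ then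
        F (List.ofFn fun j : Fin (k + 1) => c (Fin.succAbove ⟨i + 1, by omega⟩ j)) else 0 := by
  intro i
  induction i with
  | zero =>
    intro k hi F c
    rw [List.ofFn_succ, List.ofFn_succ]
    show ∑ z, (potts X).m (c 0) (c (Fin.succ 0)) z * F (z :: List.ofFn fun i => c i.succ.succ) = _
    have e0 : (⟨0, by omega⟩ : Fin (k + 2)) = 0 := rfl
    have e1 : (⟨0 + 1, by omega⟩ : Fin (k + 2)) = (0 : Fin (k + 1)).succ := rfl
    rw [e0, e1]
    have e2 : (List.ofFn fun j : Fin (k + 1) => c (Fin.succAbove (0 : Fin (k + 1)).succ j)) =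
        c 0 :: List.ofFn fun i : Fin k => c i.succ.succ := by
      rw [List.ofFn_succ, Fin.succ_succAbove_zero]
      simp only [Fin.succ_succAbove_succ, Fin.succAbove_zero]
    rw [e2]
    by_cases h : c 0 = c (Fin.succ 0)
    · rw [if_pos h, Finset.sum_eq_single (c 0)]
      · have : (potts X).m (c 0) (c (Fin.succ 0)) (c 0) = 1 := if_pos ⟨h, h.symm⟩
        rw [this, one_mul]
      · intro z _ hz
        have : (potts X).m (c 0) (c (Fin.succ 0)) z = 0 :=
          if_neg (fun h' => hz (h'.2.symm.trans h.symm))
        rw [this, zero_mul]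
      · intro h'
        exact absurd (Finset.mem_univ _) h'
    · rw [if_neg h]
      refine Finset.sum_eq_zero fun z _ => ?_
      have : (potts X).m (c 0) (c (Fin.succ 0)) z = 0 := if_neg (fun h' => h h'.1)
      rw [this, zero_mul]
  | succ i ih =>
    intro k hi F c
    obtain ⟨k', rfl⟩ : ∃ k', k = k' + 1 := ⟨k - 1, by omega⟩
    rw [List.ofFn_succ]
    show lift (dup0 (potts X)) i (fun l' => F (c 0 :: l')) (List.ofFn fun i => c i.succ) = _
    rw [ih k' (by omega) (fun l' => F (c 0 :: l')) fun i => c i.succ]
    have e1 : (⟨i, by omega⟩ : Fin (k' + 1 + 1)).succ = ⟨i + 1, by omega⟩ := rfl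
    have e2 : (⟨i + 1, by omega⟩ : Fin (k' + 1 + 1)).succ = ⟨i + 1 + 1, by omega⟩ := rfl
    show (if c (⟨i, _⟩ : Fin (k' + 1 + 1)).succ = c (⟨i + 1, _⟩ : Fin (k' + 1 + 1)).succ then
      F (c 0 :: List.ofFn fun j : Fin (k' + 1) => c (Fin.succAbove ⟨i + 1, by omega⟩ j).succ)
      else 0) = _
    rw [e1, e2]
    congr 1
    congr 1
    rw [List.ofFn_succ (f := fun j : Fin (k' + 1 + 1) => c (Fin.succAbove ⟨i + 1 + 1, by omega⟩ j)),
      ← e2, Fin.succ_succAbove_zero]
    simp only [Fin.succ_succAbove_succ]

theorem claim {k : ℕ} (s : Setoid (Fin (k + 1))) (h : NC s) :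
    (∃ i, ∀ w, s.r i w → w = i) ∨
      ∃ (i : ℕ) (hi : i + 1 < k + 1), s.r ⟨i, by omega⟩ ⟨i + 1, hi⟩ := by
  by_cases hp : ∃ x y, x < y ∧ s.r x y
  · obtain ⟨x, y, hxy, hr⟩ := hp
    have key : ∀ (d : ℕ) (x y : Fin (k + 1)), y.val - x.val ≤ d → x < y → s.r x y →
        ((∃ i, ∀ w, s.r i w → w = i) ∨
          ∃ (i : ℕ) (hi : i + 1 < k + 1), s.r ⟨i, by omega⟩ ⟨i + 1, hi⟩) := by
      intro d
      induction d with
      | zero =>
        intro x y h1 h2 _
        have := Fin.lt_def.1 h2
        omega
      | succ d ih =>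
        intro x y h1 h2 h3
        have h2' := Fin.lt_def.1 h2
        obtain ⟨z, hz⟩ : ∃ z : Fin (k + 1), z = ⟨x.val + 1, by omega⟩ := ⟨_, rfl⟩
        have hzv : z.val = x.val + 1 := by rw [hz]
        have adj : s.r x z → ((∃ i, ∀ w, s.r i w → w = i) ∨
            ∃ (i : ℕ) (hi : i + 1 < k + 1), s.r ⟨i, by omega⟩ ⟨i + 1, hi⟩) := by
          intro ha
          right
          refine ⟨x.val, by omega, ?_⟩
          rw [hz] at ha
          exact ha
        by_cases hs : ∀ w, s.r z w → w = z
        · exact Or.inl ⟨z, hs⟩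
        · push Not at hs
          obtain ⟨w, hw, hne⟩ := hs
          rcases lt_trichotomy w x with c1 | c1 | c1
          · have hxz : x < z := Fin.lt_def.2 (by omega)
            by_cases hzy : z = y
            · exact adj (by rw [hzy]; exact h3)
            · have hzy' : z < y := Fin.lt_def.2 (by
                have : z.val ≠ y.val := fun h' => hzy (Fin.ext h')
                omega)
              have h4 := h w x z y c1 hxz hzy' (s.symm hw) h3
              exact adj (s.trans (s.symm h4) (s.symm hw))
          · rw [c1] at hw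
            exact adj (s.symm hw)
          · have hwz : z < w := by
              have h5 : w.val ≠ z.val := fun h' => hne (Fin.ext h')
              have h6 := Fin.lt_def.1 c1
              exact Fin.lt_def.2 (by omega)
            rcases lt_trichotomy w y with c2 | c2 | c2
            · refine ih z w ?_ hwz hw
              have := Fin.lt_def.1 c2
              have := Fin.lt_def.1 hwz
              omega
            · rw [c2] at hw
              exact adj (s.trans h3 (s.symm hw))
            · by_cases hzy : z = y
              · exact adj (by rw [hzy]; exact h3)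
              · have hzy' : z < y := Fin.lt_def.2 (by
                  have : z.val ≠ y.val := fun h' => hzy (Fin.ext h')
                  omega)
                exact adj (h x z y w (Fin.lt_def.2 (by omega)) hzy' c2 h3 hw)
    exact key _ x y le_rfl hxy hr
  · left
    refine ⟨0, fun w hw => ?_⟩
    by_contra hne
    exact hp ⟨0, w, Fin.pos_of_ne_zero hne, hw⟩

theorem nc_comap {k : ℕ} (s : Setoid (Fin (k + 1))) (h : NC s) (i : Fin (k + 1)) :
    NC (Setoid.comap (Fin.succAbove i) s) := by
  intro a b l m hab hbl hlm h1 h2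
  have hmono := Fin.strictMono_succAbove i
  exact h _ _ _ _ (hmono hab) (hmono hbl) (hmono hlm) h1 h2

end WordAux

open WordAux in
theorem WORD_ok : S_WORD := by
  intro k
  induction k with
  | zero =>
    intro s _
    refine ⟨Word.nil, fun X _ c => ?_⟩
    have h1 : eval (potts X) Word.nil (List.ofFn c) = 1 := by
      show (if List.ofFn c = [] then (1 : ℝ) else 0) = 1
      rw [if_pos (by simp)]
    rw [h1, if_pos]
    intro x
    exact x.elim0
  | succ k ih =>
    intro s hs
    rcases claim s hs with ⟨i, hi⟩ | ⟨i, hi, hr⟩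
    · obtain ⟨W', hW'⟩ := ih _ (nc_comap s hs i)
      refine ⟨Word.ins i.val (by omega) W', fun X _ c => ?_⟩
      have h1 : eval (potts X) (Word.ins i.val (by omega) W') (List.ofFn c) =
          lift (ins0 (potts X)) i.val (eval (potts X) W') (List.ofFn c) := rfl
      rw [h1, lift_ins i.val k (by omega)]
      have h2 : (fun j : Fin k => c (Fin.succAbove ⟨i.val, by omega⟩ j)) =
          fun j => c (i.succAbove j) := rfl
      rw [h2, hW' X fun j => c (i.succAbove j)]
      refine if_congr ?_ rfl rfl
      constructor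
      · intro h x y hxy
        by_cases hx : x = i
        · rw [hx] at hxy ⊢
          rw [hi y hxy]
        · by_cases hy : y = i
          · rw [hy] at hxy ⊢
            rw [hi x (s.symm hxy)]
          · obtain ⟨x', rfl⟩ := Fin.exists_succAbove_eq hx
            obtain ⟨y', rfl⟩ := Fin.exists_succAbove_eq hy
            exact h x' y' hxy
      · intro h x y hxy
        exact h _ _ hxy
    · obtain ⟨k', rfl⟩ : ∃ k', k = k' + 1 := ⟨k - 1, by omega⟩
      obtain ⟨W', hW'⟩ := ih _ (nc_comap s hs ⟨i + 1, hi⟩)
      refine ⟨Word.dup i (by omega) W', fun X _ c => ?_⟩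
      have h1 : eval (potts X) (Word.dup i (by omega) W') (List.ofFn c) =
          lift (dup0 (potts X)) i (eval (potts X) W') (List.ofFn c) := rfl
      rw [h1, lift_dup i k' (by omega)]
      rw [hW' X fun j => c (Fin.succAbove ⟨i + 1, hi⟩ j)]
      by_cases hc : c ⟨i, by omega⟩ = c ⟨i + 1, by omega⟩
      · rw [if_pos hc]
        refine if_congr ?_ rfl rfl
        constructor
        · intro h
          -- move a point to the image of succAbove
          have key : ∀ x : Fin (k' + 1 + 1), ∃ x' : Fin (k' + 1),
              s.r x (Fin.succAbove ⟨i + 1, hi⟩ x') ∧ c x = c (Fin.succAbove ⟨i + 1, hi⟩ x') := by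
            intro x
            by_cases hx : x = ⟨i + 1, hi⟩
            · have hne : (⟨i, by omega⟩ : Fin (k' + 1 + 1)) ≠ ⟨i + 1, hi⟩ := by
                intro h'
                have := congrArg Fin.val h'
                simp at this
              obtain ⟨x', hx'⟩ := Fin.exists_succAbove_eq hne
              refine ⟨x', ?_, ?_⟩
              · rw [hx', hx]
                exact s.symm hr
              · rw [hx', hx]
                exact hc.symm
            · obtain ⟨x', hx'⟩ := Fin.exists_succAbove_eq hx
              refine ⟨x', ?_, ?_⟩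
              · rw [hx']
              · rw [hx']
          intro x y hxy
          obtain ⟨x', hx1, hx2⟩ := key x
          obtain ⟨y', hy1, hy2⟩ := key y
          rw [hx2, hy2]
          exact h x' y' (s.trans (s.symm hx1) (s.trans hxy hy1))
        · intro h x y hxy
          exact h _ _ hxy
      · rw [if_neg hc, if_neg]
        intro h
        exact hc (h _ _ hr)

end Pool.Agent.R730.RP
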