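import Pool.Agent.R730.RP.Psd
import Pool.Agent.R730.RP.Ip
import Pool.Agent.R730.RP.GLUE
import Pool.Agent.R730.RP.FK
import Pool.Agent.R730.RP.CNT
import Pool.Agent.R730.RP.WORD
import Pool.Agent.R730.RP.TL
import Pool.Agent.R657.RP.VECA
import Pool.Agent.R730.RP.MAINA
import Pool.Agent.R730.RP.CURVE
import Pool.Agent.R730.RP.HP
import Pool.Agent.R730.RP.SYM
import Pool.Agent.R730.RP.EXI

/-!
# Reflection positivity: assembly
-/

set_option autoImplicit false

namespace Pool.Agent.R730.RP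

theorem vec_all : S_VEC := VEC_ok IP_ok WORD_ok TL_ok CNT_ok

theorem main_all : S_MAIN := MAIN_ok GLUE_ok FK_ok CNT_ok vec_all

theorem psd_all : S_PSD := PSD_ok GLUE_ok FK_ok CNT_ok vec_all

theorem hp_all : S_HP := HP_ok CURVE_ok

theorem sym_all : S_SYM := SYM_ok main_all hp_all

theorem exi_all : S_EXI := EXI_ok FK_ok

end Pool.Agent.R730.RP
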