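import Pool.Agent.R730.RP.Stm2
import Pool.Agent.R730.RP.MAINA

/-!
# RP-PSD: the full Gram matrix
-/

set_option autoImplicit false

namespace Pool.Agent.R730.RP

open Finset
open scoped Classical

theorem PSD_ok : S_GLUE → S_FK → S_CNT → S_VEC → S_PSD := by
  intro hG hF hC hV ι _ k V _ H b U _ G p hH hg hp q hq x
  choose Z hZ1 hZ2 using fun i => hF (V i) k (H i) (b i)
  have hZn : ∀ i s, Z i s ≠ 0 → NC s := by
    intro i s hs
    obtain ⟨A, hA, hAs⟩ := hZ1 i s hs
    exact MAINA.nc_of_crossFree (hH i) hA hAs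
  obtain ⟨I, hI, y, hy⟩ := hV k q hq
  let A : ι → I → ℝ := fun i t => ∑ s, (Z i s).eval q * y s t
  have e : ∀ i j, (p i j).eval q = ∑ t, A i t * A j t := by
    intro i j
    rw [MAINA.chrom_eq hG hC (hg i j) (hp i j) (hZ2 i) (hZ2 j),
      MAINA.eval_eq hy (hZn i) (hZn j)]
  have h2 : ∑ i, ∑ j, x i * x j * (p i j).eval q = ∑ t, (∑ i, x i * A i t) ^ 2 := by
    have h3 : ∀ t, (∑ i, x i * A i t) ^ 2 = ∑ i, ∑ j, x i * x j * (A i t * A j t) := by
      intro t
      rw [sq, Finset.sum_mul_sum]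
      refine Finset.sum_congr rfl fun i _ => Finset.sum_congr rfl fun j _ => ?_
      ring
    rw [Finset.sum_congr rfl (fun t _ => h3 t)]
    symm
    rw [Finset.sum_comm]
    refine Finset.sum_congr rfl fun i _ => ?_
    rw [Finset.sum_comm]
    refine Finset.sum_congr rfl fun j _ => ?_
    rw [e, Finset.mul_sum]
  rw [h2]
  exact Finset.sum_nonneg fun t _ => sq_nonneg _

end Pool.Agent.R730.RP
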