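import Pool.Agent.R730.RP.Stm

/-!
# Plane drawings (MP_0d034c_co), statements of the pieces RP-CURVE, RP-HP, RP-SYM, RP-PSD
-/

set_option autoImplicit false

namespace Pool.Agent.R730.RP

open Finset
open scoped Classical

/-- A plane drawing with non-crossing arcs, exactly as in the frozen statement `S07167`. -/
def Drawing {V : Type} (G : SimpleGraph V) (f : V → ℝ × ℝ) (γ : V → V → ℝ → ℝ × ℝ) : Prop :=
  Function.Injective f ∧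
  (∀ u v : V, G.Adj u v →
    ContinuousOn (γ u v) (Set.Icc (0:ℝ) 1) ∧ Set.InjOn (γ u v) (Set.Icc (0:ℝ) 1) ∧
    γ u v 0 = f u ∧ γ u v 1 = f v ∧
    ∀ t ∈ Set.Ioo (0:ℝ) 1, ∀ w : V, γ u v t ≠ f w) ∧
  (∀ u v u' v' : V, G.Adj u v → G.Adj u' v' → Sym2.mk (u, v) ≠ Sym2.mk (u', v') →
    ∀ t ∈ Set.Ioo (0:ℝ) 1, ∀ t' ∈ Set.Ioo (0:ℝ) 1, γ u v t ≠ γ u' v' t')

/-- Two curves in the closed upper half-plane that join interleaved points of the axis meet. -/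
def S_CURVE : Prop := ∀ (a b c d : ℝ), a < b → b < c → c < d → ∀ (α β : ℝ → ℝ × ℝ),
  ContinuousOn α (Set.Icc 0 1) → ContinuousOn β (Set.Icc 0 1) →
  (∀ t ∈ Set.Icc (0:ℝ) 1, 0 ≤ (α t).2) → (∀ t ∈ Set.Icc (0:ℝ) 1, 0 ≤ (β t).2) →
  α 0 = (a, 0) → α 1 = (c, 0) → β 0 = (b, 0) → β 1 = (d, 0) →
  ∃ s ∈ Set.Icc (0:ℝ) 1, ∃ t ∈ Set.Icc (0:ℝ) 1, α s = β t

/-- A graph drawn in the closed upper half-plane is cross-free with respect to its vertices on the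
axis, from left to right. -/
def S_HP : Prop := ∀ (V : Type) (k : ℕ) (H : SimpleGraph V) (b : Fin k → V) (f : V → ℝ × ℝ)
  (γ : V → V → ℝ → ℝ × ℝ), Drawing H f γ →
  (∀ u v, H.Adj u v → ∀ t ∈ Set.Icc (0:ℝ) 1, 0 ≤ (γ u v t).2) →
  (∀ i, (f (b i)).2 = 0) → (∀ i j, i < j → (f (b i)).1 < (f (b j)).1) →
  CrossFree H b

/-- Plane graphs symmetric about the horizontal axis, no edge of which crosses the axis. -/
def S_SYM : Prop := ∀ (V : Type) [Fintype V] (G : SimpleGraph V) (f : V → ℝ × ℝ)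
  (γ : V → V → ℝ → ℝ × ℝ) (σ : V → V), Drawing G f γ →
  (∀ v, f (σ v) = ((f v).1, -(f v).2)) →
  (∀ u v, G.Adj u v → G.Adj (σ u) (σ v)) →
  (∀ u v, G.Adj u v → 0 ≤ (f u).2 → 0 ≤ (f v).2 → ∀ t ∈ Set.Icc (0:ℝ) 1, 0 ≤ (γ u v t).2) →
  (∀ u v, G.Adj u v → ¬ (0 < (f u).2 ∧ (f v).2 < 0)) →
  ∀ p h : Polynomial ℝ, IsChrom G p → IsChrom (G.induce {v | 0 ≤ (f v).2}) h →
  ∀ q : ℝ, 4 ≤ q → 0 ≤ p.eval q ∧
    h.eval q ^ 2 ≤ q ^ Nat.card {v // (f v).2 = 0} * p.eval q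

/-- The full Gram matrix is positive semidefinite. -/
def S_PSD : Prop := ∀ (ι : Type) [Fintype ι] (k : ℕ) (V : ι → Type) (_ : ∀ i, Fintype (V i))
  (H : ∀ i, SimpleGraph (V i)) (b : ∀ i, Fin k → V i)
  (U : ι → ι → Type) (_ : ∀ i j, Fintype (U i j)) (G : ∀ i j, SimpleGraph (U i j))
  (p : ι → ι → Polynomial ℝ),
  (∀ i, CrossFree (H i) (b i)) → (∀ i j, IsGluing (G i j) (H i) (b i) (H j) (b j)) →
  (∀ i j, IsChrom (G i j) (p i j)) →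
  ∀ (q : ℝ), 4 ≤ q → ∀ x : ι → ℝ, 0 ≤ ∑ i, ∑ j, x i * x j * (p i j).eval q

end Pool.Agent.R730.RP
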