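import Pool.Agent.R730.RP.Stm2

/-!
# Strict positivity for halves without minors of large minimum degree: RP-VID, RP-WOOD
-/

set_option autoImplicit false

namespace Pool.Agent.R730.RP

open Finset
open scoped Classical

/-- Contract the vertices of `S` into `v` (for `v ∉ S`). -/
def contr {V : Type} (G : SimpleGraph V) (v : V) (S : Finset V) : SimpleGraph {x // x ∉ S} where
  Adj x y := x ≠ y ∧ (G.Adj x.1 y.1 ∨ (x.1 = v ∧ ∃ s ∈ S, G.Adj s y.1) ∨
    (y.1 = v ∧ ∃ s ∈ S, G.Adj s x.1))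
  symm := ⟨fun x y h => ⟨h.1.symm, by
    rcases h.2 with h | h | h
    · exact Or.inl h.symm
    · exact Or.inr (Or.inr h)
    · exact Or.inr (Or.inl h)⟩⟩
  loopless := ⟨fun _ h => h.1 rfl⟩

/-- Expansion of the number of colourings at a vertex. -/
def S_VID : Prop := ∀ (V : Type) [Fintype V] (G : SimpleGraph V) (v : V) (n : ℕ),
  (((univ.filter (fun y => G.Adj v y)).card : ℝ) * (Nat.card (G.Coloring (Fin n)) : ℝ) =
    ∑ S ∈ (univ.filter (fun y => G.Adj v y)).powerset.filter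
        (fun S => S.Nonempty ∧ ∀ x ∈ S, ∀ y ∈ S, ¬ G.Adj x y),
      ((n : ℝ) * S.card - (univ.filter (fun y => G.Adj v y)).card) *
        (Nat.card ((contr G v S).Coloring (Fin n)) : ℝ)) ∧
  ((∀ y, ¬ G.Adj v y) →
    Nat.card (G.Coloring (Fin n)) = n * Nat.card ((G.induce {x | x ≠ v}).Coloring (Fin n)))

/-- `M` is a minor of `H`. -/
def IsMinor {V W : Type} (H : SimpleGraph V) (M : SimpleGraph W) : Prop :=
  ∃ B : W → Set V, (∀ i, (B i).Nonempty) ∧ (∀ i, (H.induce (B i)).Preconnected) ∧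
    (∀ i j, i ≠ j → Disjoint (B i) (B j)) ∧
    ∀ i j, M.Adj i j → ∃ u ∈ B i, ∃ v ∈ B j, H.Adj u v

/-- Every nonempty minor of `H` has a vertex of degree at most `k`. -/
def LowMinors {V : Type} (k : ℕ) (H : SimpleGraph V) : Prop :=
  ∀ (W : Type) [Fintype W] [Nonempty W] (M : SimpleGraph W), IsMinor H M →
    ∃ x : W, (univ.filter (fun y => M.Adj x y)).card ≤ k

/-- (Woodall, Thomassen) no real root above `k`. -/
def S_WOOD : Prop := ∀ (V : Type) [Fintype V] (k : ℕ) (H : SimpleGraph V), LowMinors k H →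
  ∀ h : Polynomial ℝ, IsChrom H h → ∀ q : ℝ, (k : ℝ) < q → 0 < h.eval q

/-- Every graph has a chromatic polynomial. -/
def S_EXI : Prop := ∀ (V : Type) [Fintype V] (G : SimpleGraph V), ∃ p : Polynomial ℝ, IsChrom G p

end Pool.Agent.R730.RP
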