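import Pool.Agent.R730.RP.Stm3

/-! MP_0d034c_co, piece RP-VID. -/

set_option autoImplicit false

namespace Pool.Agent.R730.RP

open Finset
open scoped Classical

namespace VID

/-- functions that are proper off the vertex `v` -/
noncomputable def PP {V : Type} [Fintype V] (G : SimpleGraph V) (v : V) (n : ℕ) :
    Finset (V → Fin n) :=
  univ.filter (fun h => ∀ x y, G.Adj x y → x ≠ v → y ≠ v → h x ≠ h y)

/-- neighbours with the colour of `v` -/
noncomputable def SS {V : Type} [Fintype V] (G : SimpleGraph V) (v : V) {n : ℕ}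
    (h : V → Fin n) : Finset V :=
  (univ.filter (fun y => G.Adj v y)).filter (fun x => h x = h v)

lemma card_col {V : Type} [Fintype V] [DecidableEq V] (G : SimpleGraph V) (n : ℕ) :
    Nat.card (G.Coloring (Fin n)) =
      (univ.filter (fun h : V → Fin n => ∀ x y, G.Adj x y → h x ≠ h y)).card := by
  rw [← Nat.subtype_card (p := fun h : V → Fin n => ∀ x y, G.Adj x y → h x ≠ h y) _
    (fun h => by simp)]
  apply Nat.card_congr
  exact
    { toFun := fun c => ⟨fun x => c x, fun x y h => c.valid h⟩
      invFun := fun h => SimpleGraph.Coloring.mk h.1 (fun {x y} hxy => h.2 x y hxy)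
      left_inv := fun c => by ext x; rfl
      right_inv := fun h => by ext x; rfl }

lemma mem_PP {V : Type} [Fintype V] {G : SimpleGraph V} {v : V} {n : ℕ} {h : V → Fin n} :
    h ∈ PP G v n ↔ ∀ x y, G.Adj x y → x ≠ v → y ≠ v → h x ≠ h y := by
  simp [PP]

lemma mem_SS {V : Type} [Fintype V] {G : SimpleGraph V} {v : V} {n : ℕ} {h : V → Fin n} {x : V} :
    x ∈ SS G v h ↔ G.Adj v x ∧ h x = h v := by
  simp [SS]

lemma card_one {V : Type} [Fintype V] (G : SimpleGraph V) (v x : V) (hx : x ≠ v) (n : ℕ) :
    (PP G v n).card = n * ((PP G v n).filter (fun h => h x = h v)).card := by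
  have h1 : n * ((PP G v n).filter (fun h => h x = h v)).card =
      (((PP G v n).filter (fun h => h x = h v)) ×ˢ (univ : Finset (Fin n))).card := by
    rw [Finset.card_product, Finset.card_univ, Fintype.card_fin, mul_comm]
  rw [h1]
  have hP : ∀ (h : V → Fin n) (c : Fin n), h ∈ PP G v n → Function.update h v c ∈ PP G v n := by
    intro h c hh
    rw [mem_PP] at hh ⊢
    intro a b hab ha hb
    rw [Function.update_of_ne ha, Function.update_of_ne hb]
    exact hh a b hab ha hb
  refine Finset.card_bij' (fun h _ => (Function.update h v (h x), h v))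
    (fun g _ => Function.update g.1 v g.2) ?_ ?_ ?_ ?_
  · intro h hh
    rw [Finset.mem_product, Finset.mem_filter]
    refine ⟨⟨hP _ _ hh, ?_⟩, Finset.mem_univ _⟩
    show Function.update h v (h x) x = Function.update h v (h x) v
    rw [Function.update_of_ne hx, Function.update_self]
  · intro g hg
    rw [Finset.mem_product, Finset.mem_filter] at hg
    exact hP _ _ hg.1.1
  · intro h hh
    show Function.update (Function.update h v (h x)) v (h v) = h
    rw [Function.update_idem, Function.update_eq_self]
  · rintro ⟨g, c⟩ hg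
    rw [Finset.mem_product, Finset.mem_filter] at hg
    have hg2 : g x = g v := hg.1.2
    show (Function.update (Function.update g v c) v (Function.update g v c x),
      Function.update g v c v) = (g, c)
    rw [Function.update_idem, Function.update_self, Function.update_of_ne hx, hg2,
      Function.update_eq_self]

lemma card_empty {V : Type} [Fintype V] (G : SimpleGraph V) (v : V) (n : ℕ) :
    Nat.card (G.Coloring (Fin n)) = ((PP G v n).filter (fun h => SS G v h = ∅)).card := by
  rw [card_col]
  congr 1
  ext h
  simp only [Finset.mem_filter, Finset.mem_univ, true_and, mem_PP]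
  constructor
  · intro hh
    refine ⟨fun x y hxy _ _ => hh x y hxy, ?_⟩
    rw [Finset.eq_empty_iff_forall_notMem]
    intro x hx
    rw [mem_SS] at hx
    exact hh v x hx.1 hx.2.symm
  · rintro ⟨h1, h2⟩ x y hxy
    rw [Finset.eq_empty_iff_forall_notMem] at h2
    by_cases hx : x = v
    · subst hx
      intro he
      exact h2 y (mem_SS.2 ⟨hxy, he.symm⟩)
    · by_cases hy : y = v
      · subst hy
        intro he
        exact h2 x (mem_SS.2 ⟨hxy.symm, he⟩)
      · exact h1 x y hxy hx hy

lemma card_contr {V : Type} [Fintype V] (G : SimpleGraph V) (v : V) (n : ℕ) (S : Finset V)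
    (hS : ∀ x ∈ S, G.Adj v x) (hne : S.Nonempty) (hind : ∀ x ∈ S, ∀ y ∈ S, ¬ G.Adj x y) :
    Nat.card ((contr G v S).Coloring (Fin n)) =
      ((PP G v n).filter (fun h => SS G v h = S)).card := by
  rw [card_col]
  have hv : v ∉ S := fun h => G.loopless.irrefl v (hS v h)
  refine Finset.card_bij' (fun g _ => fun x => if hx : x ∈ S then g ⟨v, hv⟩ else g ⟨x, hx⟩)
    (fun h _ => fun x => h x.1) ?_ ?_ ?_ ?_
  · intro g hg
    have hg' : ∀ x y, (contr G v S).Adj x y → g x ≠ g y := by simpa using hg
    have key : ∀ x (hx : x ∉ S), G.Adj v x → g ⟨v, hv⟩ ≠ g ⟨x, hx⟩ := by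
      intro x hx ha
      exact hg' _ _ ⟨fun e => ha.ne (congrArg Subtype.val e), Or.inl ha⟩
    have key2 : ∀ s ∈ S, ∀ x (hx : x ∉ S), x ≠ v → G.Adj s x → g ⟨v, hv⟩ ≠ g ⟨x, hx⟩ := by
      intro s hs x hx hxv ha
      exact hg' _ _ ⟨fun e => hxv (congrArg Subtype.val e).symm, Or.inr (Or.inl ⟨rfl, s, hs, ha⟩)⟩
    rw [Finset.mem_filter, mem_PP]
    refine ⟨?_, ?_⟩
    · intro x y hxy hx hy
      by_cases h1 : x ∈ S
      · by_cases h2 : y ∈ S
        · exact absurd hxy (hind x h1 y h2)
        · simp only [h1, h2, dite_true, dite_false]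
          exact key2 x h1 y h2 hy hxy
      · by_cases h2 : y ∈ S
        · simp only [h1, h2, dite_true, dite_false]
          exact (key2 y h2 x h1 hx hxy.symm).symm
        · simp only [h1, h2, dite_false]
          exact hg' _ _ ⟨fun e => hxy.ne (congrArg Subtype.val e), Or.inl hxy⟩
    · ext x
      rw [mem_SS]
      by_cases h1 : x ∈ S
      · simp only [h1, hv, dite_true, dite_false, iff_true]
        exact ⟨hS x h1, trivial⟩
      · simp only [h1, hv, dite_false, iff_false]
        rintro ⟨ha, he⟩
        exact key x h1 ha he.symm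
  · intro h hh
    rw [Finset.mem_filter, mem_PP] at hh
    obtain ⟨hP, hSS⟩ := hh
    have hmem : ∀ x, G.Adj v x → x ∉ S → h x ≠ h v := by
      intro x ha hx he
      exact hx (hSS ▸ mem_SS.2 ⟨ha, he⟩)
    have hs : ∀ s ∈ S, h s = h v := by
      intro s hs
      rw [← hSS, mem_SS] at hs
      exact hs.2
    rw [Finset.mem_filter]
    refine ⟨Finset.mem_univ _, ?_⟩
    rintro ⟨x, hx⟩ ⟨y, hy⟩ ⟨hxy, h1 | ⟨h1, s, hs1, hs2⟩ | ⟨h1, s, hs1, hs2⟩⟩
    · show h x ≠ h y
      have h1' : G.Adj x y := h1
      by_cases hxv : x = v
      · subst hxv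
        exact (hmem y h1' hy).symm
      · by_cases hyv : y = v
        · subst hyv
          exact hmem x h1'.symm hx
        · exact hP x y h1' hxv hyv
    · show h x ≠ h y
      have h1' : x = v := h1
      have hs2' : G.Adj s y := hs2
      have hyv : y ≠ v := by
        rintro rfl
        exact hxy (Subtype.ext h1')
      rw [h1', ← hs s hs1]
      exact hP s y hs2' (hS s hs1).ne' hyv
    · show h x ≠ h y
      have h1' : y = v := h1
      have hs2' : G.Adj s x := hs2
      have hxv : x ≠ v := by
        rintro rfl
        exact hxy (Subtype.ext h1'.symm)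
      rw [h1', ← hs s hs1]
      exact (hP s x hs2' (hS s hs1).ne' hxv).symm
  · intro g hg
    funext x
    show (if hx : x.1 ∈ S then g ⟨v, hv⟩ else g ⟨x.1, hx⟩) = g x
    rw [dif_neg x.2]
  · intro h hh
    rw [Finset.mem_filter] at hh
    funext x
    show (if hx : x ∈ S then h v else h x) = h x
    by_cases hx : x ∈ S
    · rw [dif_pos hx]
      rw [← hh.2, mem_SS] at hx
      exact hx.2.symm
    · rw [dif_neg hx]

end VID

open VID

theorem VID_ok : S_VID := by
  intro V _ G v n
  refine ⟨?_, ?_⟩
  · set N := univ.filter (fun y => G.Adj v y) with hN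
    have hsub : ∀ h : V → Fin n, SS G v h ⊆ N := fun h => Finset.filter_subset _ _
    -- the total
    have htot : ∑ h ∈ PP G v n, ((n : ℝ) * (SS G v h).card - N.card) = 0 := by
      have h1 : ∑ h ∈ PP G v n, (SS G v h).card =
          ∑ x ∈ N, ((PP G v n).filter (fun h => h x = h v)).card := by
        simp only [SS, Finset.card_filter]
        rw [Finset.sum_comm]
      have h2 : n * ∑ h ∈ PP G v n, (SS G v h).card = N.card * (PP G v n).card := by
        rw [h1, Finset.mul_sum, Finset.sum_congr rfl (g := fun _ => (PP G v n).card)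
          (fun x hx => (card_one G v x (Finset.mem_filter.1 hx).2.ne' n).symm),
          Finset.sum_const, smul_eq_mul]
      have h3 : (n : ℝ) * ∑ h ∈ PP G v n, ((SS G v h).card : ℝ) = N.card * (PP G v n).card := by
        exact_mod_cast h2
      rw [Finset.sum_sub_distrib, ← Finset.mul_sum, h3, Finset.sum_const, nsmul_eq_mul]
      ring
    rw [← Finset.sum_filter_add_sum_filter_not (PP G v n) (fun h => SS G v h = ∅)] at htot
    have hA : ∑ h ∈ (PP G v n).filter (fun h => SS G v h = ∅),
        ((n : ℝ) * (SS G v h).card - N.card) = -((N.card : ℝ) * Nat.card (G.Coloring (Fin n))) := by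
      rw [Finset.sum_congr rfl (g := fun _ => -(N.card : ℝ)) (fun h hh => by
        rw [(Finset.mem_filter.1 hh).2]; simp), Finset.sum_const, card_empty G v n, nsmul_eq_mul]
      ring
    set T := N.powerset.filter
        (fun S => S.Nonempty ∧ ∀ x ∈ S, ∀ y ∈ S, ¬ G.Adj x y) with hT
    have hmaps : ∀ h ∈ (PP G v n).filter (fun h => ¬ SS G v h = ∅), SS G v h ∈ T := by
      intro h hh
      rw [Finset.mem_filter, mem_PP] at hh
      rw [hT, Finset.mem_filter, Finset.mem_powerset]
      refine ⟨hsub h, Finset.nonempty_iff_ne_empty.2 hh.2, ?_⟩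
      intro x hx y hy hxy
      rw [mem_SS] at hx hy
      exact hh.1 x y hxy hx.1.ne' hy.1.ne' (hx.2.trans hy.2.symm)
    have hB : ∑ h ∈ (PP G v n).filter (fun h => ¬ SS G v h = ∅),
        ((n : ℝ) * (SS G v h).card - N.card) =
        ∑ S ∈ T, ((n : ℝ) * S.card - N.card) * (Nat.card ((contr G v S).Coloring (Fin n)) : ℝ) := by
      rw [← Finset.sum_fiberwise_of_maps_to hmaps]
      apply Finset.sum_congr rfl
      intro S hS
      rw [hT, Finset.mem_filter, Finset.mem_powerset] at hS
      obtain ⟨hS1, hS2, hS3⟩ := hS
      rw [card_contr G v n S (fun x hx => (Finset.mem_filter.1 (hS1 hx)).2) hS2 hS3,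
        Finset.filter_filter]
      have e : (PP G v n).filter (fun h => ¬ SS G v h = ∅ ∧ SS G v h = S) =
          (PP G v n).filter (fun h => SS G v h = S) := by
        apply Finset.filter_congr
        intro h _
        constructor
        · exact fun h => h.2
        · rintro rfl
          exact ⟨hS2.ne_empty, rfl⟩
      rw [e, Finset.sum_congr rfl (g := fun _ => ((n : ℝ) * S.card - N.card))
        (fun h hh => by rw [(Finset.mem_filter.1 hh).2]), Finset.sum_const, nsmul_eq_mul]
      ring
    rw [hA, hB] at htot
    linarith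
  · intro hiso
    have e : G.Coloring (Fin n) ≃ Fin n × (G.induce {x | x ≠ v}).Coloring (Fin n) :=
      { toFun := fun c => (c v, SimpleGraph.Coloring.mk (fun x => c x.1)
          (fun {x y} hxy => c.valid hxy))
        invFun := fun p => SimpleGraph.Coloring.mk
          (fun x => if hx : x = v then p.1 else p.2 ⟨x, hx⟩) (by
            intro x y hxy
            have hx : x ≠ v := by
              rintro rfl
              exact hiso y hxy
            have hy : y ≠ v := by
              rintro rfl
              exact hiso x hxy.symm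
            simp only [hx, hy, dite_false]
            exact p.2.valid hxy)
        left_inv := by
          intro c
          ext x
          show ((if hx : x = v then c v else c x : Fin n) : ℕ) = c x
          by_cases hx : x = v
          · rw [dif_pos hx, hx]
          · rw [dif_neg hx]
        right_inv := by
          rintro ⟨a, g⟩
          refine Prod.ext ?_ ?_
          · show (if hx : v = v then a else g ⟨v, hx⟩) = a
            rw [dif_pos rfl]
          · ext x
            show ((if hx : x.1 = v then a else g ⟨x.1, hx⟩ : Fin n) : ℕ) = g x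
            rw [dif_neg x.2] }
    rw [Nat.card_congr e, Nat.card_prod, Nat.card_eq_fintype_card, Fintype.card_fin]

end Pool.Agent.R730.RP
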