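import Pool.Agent.R730.RP.Stm3

/-! MP_0d034c_co, piece RP-WOOD. -/

set_option autoImplicit false

namespace Pool.Agent.R730.RP

open Finset
open scoped Classical

namespace WOOD

/-- polynomials that agree at all naturals are equal -/
lemma poly_eq {p q : Polynomial ℝ} (h : ∀ n : ℕ, p.eval (n : ℝ) = q.eval (n : ℝ)) : p = q := by
  apply Polynomial.eq_of_infinite_eval_eq
  exact Set.infinite_of_injective_forall_mem (f := fun n : ℕ => (n : ℝ)) Nat.cast_injective
    (fun n => h n)

lemma isMinor_refl {V : Type} (H : SimpleGraph V) : IsMinor H H := by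
  refine ⟨fun v => {v}, fun i => Set.singleton_nonempty i, ?_, ?_, ?_⟩
  · rintro i ⟨x, hx⟩ ⟨y, hy⟩
    have hx' : x = i := hx
    have hy' : y = i := hy
    subst hx'
    subst hy'
    exact SimpleGraph.Reachable.refl _
  · intro i j hij
    exact Set.disjoint_singleton.2 hij
  · intro i j hij
    exact ⟨i, rfl, j, rfl, hij⟩

lemma isMinor_induce {V W : Type} {H : SimpleGraph V} {M : SimpleGraph W} (h : IsMinor H M)
    (s : Set W) : IsMinor H (M.induce s) := by
  obtain ⟨B, h1, h2, h3, h4⟩ := h
  exact ⟨fun i => B i.1, fun i => h1 _, fun i => h2 _,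
    fun i j hij => h3 _ _ (fun e => hij (Subtype.ext e)), fun i j hij => h4 _ _ hij⟩

lemma conn_union {V W : Type} {H : SimpleGraph V} {M : SimpleGraph W} (B : W → Set V)
    (h2 : ∀ i, (H.induce (B i)).Preconnected)
    (h4 : ∀ i j, M.Adj i j → ∃ u ∈ B i, ∃ v ∈ B j, H.Adj u v) (v : W) (S : Finset W)
    (hS : ∀ x ∈ S, M.Adj v x) : (H.induce (B v ∪ ⋃ s ∈ S, B s)).Preconnected := by
  induction S using Finset.induction_on with
  | empty =>
    have e : (B v ∪ ⋃ s ∈ (∅ : Finset W), B s) = B v := by simp
    rw [e]
    exact h2 v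
  | insert a S ha ih =>
    have e : (B v ∪ ⋃ s ∈ insert a S, B s) = (B v ∪ ⋃ s ∈ S, B s) ∪ B a := by
      rw [Finset.set_biUnion_insert, Set.union_comm (B a), Set.union_assoc]
    rw [e]
    obtain ⟨u, hu, w, hw, huw⟩ := h4 v a (hS a (Finset.mem_insert_self _ _))
    exact (SimpleGraph.connected_induce_union (ih fun x hx => hS x (Finset.mem_insert_of_mem hx))
      (h2 a) (Or.inl hu) hw huw).preconnected

lemma isMinor_contr {V W : Type} {H : SimpleGraph V} {M : SimpleGraph W} (h : IsMinor H M)
    (v : W) (S : Finset W) (hS : ∀ x ∈ S, M.Adj v x) : IsMinor H (contr M v S) := by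
  obtain ⟨B, h1, h2, h3, h4⟩ := h
  have hv : v ∉ S := fun h => M.loopless.irrefl v (hS v h)
  set B' : {x // x ∉ S} → Set V :=
    fun x => if x.1 = v then B v ∪ ⋃ s ∈ S, B s else B x.1 with hB'
  have hsub : ∀ x : {x // x ∉ S}, B x.1 ⊆ B' x := by
    intro x
    simp only [hB']
    split_ifs with hx
    · rw [hx]
      exact Set.subset_union_left
    · exact Set.Subset.rfl
  have hsub2 : ∀ x : {x // x ∉ S}, x.1 = v → ∀ s ∈ S, B s ⊆ B' x := by
    intro x hx s hs
    simp only [hB', hx, if_true]
    exact (Set.subset_biUnion_of_mem (u := fun s => B s) (show s ∈ (S : Set W) from hs)).trans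
      Set.subset_union_right
  have hdis : ∀ x : {x // x ∉ S}, x.1 ≠ v → Disjoint (B v ∪ ⋃ s ∈ S, B s) (B x.1) := by
    intro x hx
    rw [Set.disjoint_union_left]
    refine ⟨h3 _ _ hx.symm, ?_⟩
    rw [Set.disjoint_iUnion₂_left]
    intro s hs
    exact h3 _ _ (fun e => x.2 (e ▸ hs))
  refine ⟨B', ?_, ?_, ?_, ?_⟩
  · intro i
    exact (h1 i.1).mono (hsub i)
  · intro i
    by_cases hi : i.1 = v
    · have e : B' i = B v ∪ ⋃ s ∈ S, B s := by simp only [hB', hi, if_true]
      rw [e]
      exact conn_union B h2 h4 v S hS
    · have e : B' i = B i.1 := by simp only [hB', hi, if_false]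
      rw [e]
      exact h2 _
  · intro i j hij
    have hij' : i.1 ≠ j.1 := fun e => hij (Subtype.ext e)
    by_cases hi : i.1 = v
    · have hj : j.1 ≠ v := fun e => hij' (hi.trans e.symm)
      have e1 : B' i = B v ∪ ⋃ s ∈ S, B s := by simp only [hB', hi, if_true]
      have e2 : B' j = B j.1 := by simp only [hB', hj, if_false]
      rw [e1, e2]
      exact hdis j hj
    · have e1 : B' i = B i.1 := by simp only [hB', hi, if_false]
      by_cases hj : j.1 = v
      · have e2 : B' j = B v ∪ ⋃ s ∈ S, B s := by simp only [hB', hj, if_true]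
        rw [e1, e2]
        exact (hdis i hi).symm
      · have e2 : B' j = B j.1 := by simp only [hB', hj, if_false]
        rw [e1, e2]
        exact h3 _ _ hij'
  · rintro i j ⟨hij, ha | ⟨hi, s, hs, ha⟩ | ⟨hj, s, hs, ha⟩⟩
    · obtain ⟨u, hu, w, hw, huw⟩ := h4 _ _ ha
      exact ⟨u, hsub i hu, w, hsub j hw, huw⟩
    · obtain ⟨u, hu, w, hw, huw⟩ := h4 _ _ ha
      exact ⟨u, hsub2 i hi s hs hu, w, hsub j hw, huw⟩
    · obtain ⟨u, hu, w, hw, huw⟩ := h4 _ _ ha
      exact ⟨w, hsub i hw, u, hsub2 j hj s hs hu, huw.symm⟩

end WOOD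

open WOOD

theorem WOOD_ok : S_EXI → S_VID → S_WOOD := by
  intro hE hV V _ k H hlow h hh q hq
  have hq0 : 0 < q := lt_of_le_of_lt (Nat.cast_nonneg k) hq
  suffices key : ∀ m : ℕ, ∀ (W : Type) [Fintype W] (M : SimpleGraph W), Fintype.card W ≤ m →
      IsMinor H M → ∀ p : Polynomial ℝ, IsChrom M p → 0 < p.eval q from
    key _ V H le_rfl (isMinor_refl H) h hh
  intro m
  induction m with
  | zero =>
    intro W _ M hcard hM p hp
    have hemp : IsEmpty W := Fintype.card_eq_zero_iff.1 (Nat.le_zero.1 hcard)
    have hp1 : p = 1 := by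
      apply poly_eq
      intro n
      rw [hp n, Polynomial.eval_one]
      have : Nat.card (M.Coloring (Fin n)) = 1 := by
        rw [Nat.card_eq_one_iff_unique]
        refine ⟨⟨fun a b => ?_⟩, ⟨SimpleGraph.Coloring.mk (fun x => hemp.elim x)
          (fun {x y} _ => hemp.elim x)⟩⟩
        ext x
        exact hemp.elim x
      rw [this]
      simp
    rw [hp1, Polynomial.eval_one]
    exact one_pos
  | succ m ih =>
    intro W _ M hcard hM p hp
    rcases isEmpty_or_nonempty W with hemp | hne
    · exact ih W M (by rw [Fintype.card_eq_zero]; omega) hM p hp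
    · obtain ⟨v, hv⟩ := hlow W M hM
      set N := univ.filter (fun y => M.Adj v y) with hN
      rcases Finset.eq_empty_or_nonempty N with hN0 | hN1
      · have hiso : ∀ y, ¬ M.Adj v y := by
          intro y hy
          have : y ∈ N := by rw [hN]; simp [hy]
          rw [hN0] at this
          simp at this
        obtain ⟨p', hp'⟩ := hE _ (M.induce {x | x ≠ v})
        have hpp : p = Polynomial.X * p' := by
          apply poly_eq
          intro n
          rw [hp n, Polynomial.eval_mul, Polynomial.eval_X, hp' n, (hV W M v n).2 hiso]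
          push_cast
          rfl
        have hc : Fintype.card {x | x ≠ v} ≤ m := by
          have : Fintype.card {x // x ≠ v} < Fintype.card W :=
            Fintype.card_subtype_lt (x := v) (by simp)
          have h2 : Fintype.card {x | x ≠ v} = Fintype.card {x // x ≠ v} := Fintype.card_congr
            (Equiv.refl _)
          omega
        have h1 := ih _ (M.induce {x | x ≠ v}) hc (isMinor_induce hM _) p' hp'
        rw [hpp, Polynomial.eval_mul, Polynomial.eval_X]
        exact mul_pos hq0 h1
      · set T := N.powerset.filter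
          (fun S => S.Nonempty ∧ ∀ x ∈ S, ∀ y ∈ S, ¬ M.Adj x y) with hT
        choose pS hpS using fun S : Finset W => hE _ (contr M v S)
        have hpp : Polynomial.C (N.card : ℝ) * p = ∑ S ∈ T,
            (Polynomial.C (S.card : ℝ) * Polynomial.X - Polynomial.C (N.card : ℝ)) * pS S := by
          apply poly_eq
          intro n
          rw [Polynomial.eval_mul, Polynomial.eval_C, hp n, (hV W M v n).1,
            Polynomial.eval_finset_sum]
          apply Finset.sum_congr rfl
          intro S _
          rw [Polynomial.eval_mul, Polynomial.eval_sub, Polynomial.eval_mul, Polynomial.eval_C,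
            Polynomial.eval_C, Polynomial.eval_X, hpS S n, mul_comm (S.card : ℝ)]
        have hd : (N.card : ℝ) ≤ k := by exact_mod_cast hv
        have hpos : 0 < ∑ S ∈ T, ((S.card : ℝ) * q - N.card) * (pS S).eval q := by
          apply Finset.sum_pos
          · intro S hS
            rw [hT, Finset.mem_filter, Finset.mem_powerset] at hS
            obtain ⟨hS1, hS2, hS3⟩ := hS
            have hSa : ∀ x ∈ S, M.Adj v x := fun x hx => (Finset.mem_filter.1 (hS1 hx)).2
            have hc1 : (1 : ℝ) ≤ S.card := by exact_mod_cast hS2.card_pos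
            apply mul_pos
            · nlinarith
            · apply ih _ (contr M v S) _ (isMinor_contr hM v S hSa) _ (hpS S)
              obtain ⟨s, hs⟩ := hS2
              have : Fintype.card {x // x ∉ S} < Fintype.card W :=
                Fintype.card_subtype_lt (x := s) (by simpa using hs)
              omega
          · obtain ⟨u, hu⟩ := hN1
            refine ⟨{u}, ?_⟩
            rw [hT, Finset.mem_filter, Finset.mem_powerset]
            refine ⟨by simpa using hu, Finset.singleton_nonempty u, ?_⟩
            intro x hx y hy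
            rw [Finset.mem_singleton] at hx hy
            rw [hx, hy]
            exact M.loopless.irrefl u
        have h1 := congrArg (Polynomial.eval q) hpp
        rw [Polynomial.eval_mul, Polynomial.eval_C, Polynomial.eval_finset_sum] at h1
        have h2 : ∑ S ∈ T, Polynomial.eval q ((Polynomial.C (S.card : ℝ) * Polynomial.X -
            Polynomial.C (N.card : ℝ)) * pS S) = ∑ S ∈ T, ((S.card : ℝ) * q - N.card) *
              (pS S).eval q := by
          apply Finset.sum_congr rfl
          intro S _
          rw [Polynomial.eval_mul, Polynomial.eval_sub, Polynomial.eval_mul, Polynomial.eval_C,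
            Polynomial.eval_C, Polynomial.eval_X]
        rw [h2] at h1
        rw [← h1] at hpos
        by_contra hcon
        push Not at hcon
        have h3 : (N.card : ℝ) * p.eval q ≤ 0 :=
          mul_nonpos_of_nonneg_of_nonpos (Nat.cast_nonneg _) hcon
        linarith

end Pool.Agent.R730.RP
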